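import Pool.Agent.Run7.h596.Rep

/-! # Existence of Tate reductions -/

set_option autoImplicit false

namespace Run7.h596

/-- The Tate reduction at an element acting centrally with `z ^ 2 = 1` exists. -/
theorem exists_isTate {k G V : Type} [Field k] [Group G] [AddCommGroup V] [Module k V]
    (ρ : Representation k G V) (z : G) (hc : ∀ (g : G) (x : V), ρ z (ρ g x) = ρ g (ρ z x))
    (hzz : ∀ x, ρ z (ρ z x) = x) :
    ∃ (V' : Type) (_ : AddCommGroup V') (_ : Module k V') (σ : Representation k G V'),
      IsTate ρ z σ := by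
  let K : Submodule k V := LinearMap.ker (ρ z - 1)
  let I : Submodule k K := (LinearMap.range (ρ z - 1)).comap K.subtype
  have hK : ∀ g, ∀ x ∈ K, ρ g x ∈ K := by
    intro g x hx
    have h1 : (ρ z - 1) x = 0 := hx
    change (ρ z - 1) (ρ g x) = 0
    simp only [LinearMap.sub_apply, Module.End.one_apply, sub_eq_zero] at h1 ⊢
    rw [hc, h1]
  let τ : Representation k G K := subRep ρ K hK
  have hI : ∀ g, I ≤ I.comap (τ g) := by
    intro g x hx
    obtain ⟨y, hy⟩ := hx
    refine ⟨ρ g y, ?_⟩
    change (ρ z - 1) (ρ g y) = ρ g (x : V)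
    have h2 : (ρ z - 1) y = (x : V) := hy
    rw [← h2]
    simp only [LinearMap.sub_apply, Module.End.one_apply, map_sub]
    rw [hc]
  let σ : Representation k G (K ⧸ I) :=
    { toFun := fun g => I.mapQ I (τ g) (hI g)
      map_one' := by
        ext x
        simp
      map_mul' := by
        intro g h
        ext x
        simp }
  refine ⟨K ⧸ I, inferInstance, inferInstance, σ, hzz, I.mkQ, I.mkQ_surjective, ?_, ?_⟩
  · intro x
    rw [← LinearMap.mem_ker, Submodule.ker_mkQ]
    rfl
  · intro g x y hy
    have : y = τ g x := Subtype.ext hy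
    rw [this]
    rfl

/-- The special case of one reduction step: an indecomposable module on which some central `z` with
`z ^ 2 = 1` has exactly one Jordan block of size one is `TateTame`. -/
theorem tateTame_of_one {k G V : Type} [Field k] [Group G] [AddCommGroup V] [Module k V]
    [FiniteDimensional k V] (ρ : Representation k G V) (hi : Indec ρ) (z : G)
    (hc : ∀ (g : G) (x : V), ρ z (ρ g x) = ρ g (ρ z x)) (hzz : ∀ x, ρ z (ρ z x) = x)
    (hrank : 2 * Module.finrank k (LinearMap.range (ρ z - 1)) + 1 = Module.finrank k V)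
    (h2 : (2 : k) = 0) :
    TateTame G ∅ V ρ := by
  obtain ⟨V', _, _, σ, hT⟩ := exists_isTate ρ z hc hzz
  refine TateTame.enlarge G ∅ V ρ hi (TateTame.step G _ V V' ρ σ z hc hT
    (TateTame.one G _ V' σ ?_))
  obtain ⟨_, π, hs, hk, _⟩ := hT
  have h1 := LinearMap.finrank_range_add_finrank_ker π
  have h3 := LinearMap.finrank_range_add_finrank_ker (ρ z - 1)
  rw [LinearMap.range_eq_top.mpr hs, finrank_top] at h1
  have h4 : Module.finrank k (LinearMap.ker π)
      = Module.finrank k (LinearMap.range (ρ z - 1)) := by
    have h5 : (LinearMap.ker π).map (LinearMap.ker (ρ z - 1)).subtype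
        = LinearMap.range (ρ z - 1) := by
      ext x
      constructor
      · rintro ⟨y, hy, rfl⟩
        exact (hk y).mp hy
      · rintro ⟨y, rfl⟩
        have h6 : (ρ z - 1) y ∈ LinearMap.ker (ρ z - 1) := by
          rw [LinearMap.mem_ker]
          simp only [LinearMap.sub_apply, Module.End.one_apply, map_sub, hzz]
          have : y - ρ z y - (ρ z y - y) = (2 : k) • (y - ρ z y) := by
            rw [two_smul]; abel
          rw [this, h2, zero_smul]
        exact ⟨⟨_, h6⟩, (hk _).mpr ⟨y, rfl⟩, rfl⟩
    rw [← h5, Submodule.finrank_map_subtype_eq]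
  omega

end Run7.h596
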