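import Pool.Agent.Run7.h71.CD.Stm

set_option autoImplicit false

namespace Pool.Agent.Run7.h71.CD

/-- derivations kill numerals -/
theorem dnum596 {A : Type} [CommRing A] [Algebra ℝ A] (D : Derivation ℝ A A) (n : ℕ)
    [n.AtLeastTwo] : D (no_index (OfNat.ofNat n : A)) = 0 := by
  have h : (OfNat.ofNat n : A) = ((OfNat.ofNat n : ℕ) : A) := (Nat.cast_ofNat).symm
  rw [h]; exact D.map_natCast _

example {A : Type} [CommRing A] [Algebra ℝ A] (D : Derivation ℝ A A) (x y : A): D (2 * x + 8 * x * y) = 2 * D x + 8 * (x * D y + y * D x) := by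
  simp only [map_add, Derivation.leibniz, smul_eq_mul, dnum596]
  ring
end Pool.Agent.Run7.h71.CD
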