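import Pool.Agent.Run7.h596.CD_Num

set_option autoImplicit false
set_option linter.unusedSimpArgs false

namespace Pool.Agent.Run7.h71.CD

/-- the coordinates in a frame are unique -/
theorem frame_unique596 {A : Type} [CommRing A] {X ζ ν : Fin 3 → A}
    (hdet : IsUnit (Matrix.of ![X, ζ, ν]).det) {x y z : A}
    (h : ∀ i, x * X i + y * ζ i + z * ν i = 0) : x = 0 ∧ y = 0 ∧ z = 0 := by
  have h1 : Matrix.vecMul ![x, y, z] (Matrix.of ![X, ζ, ν]) = 0 := by
    funext i
    have := h i
    simp only [Matrix.vecMul, dotProduct, Fin.sum_univ_three, Matrix.of_apply, Pi.zero_apply]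
    exact this
  have h2 : ![x, y, z] = 0 := by
    calc ![x, y, z] = Matrix.vecMul ![x, y, z] ((Matrix.of ![X, ζ, ν]) * (Matrix.of ![X, ζ, ν])⁻¹) := by
          rw [Matrix.mul_nonsing_inv _ hdet, Matrix.vecMul_one]
      _ = 0 := by rw [← Matrix.vecMul_vecMul, h1, Matrix.zero_vecMul]
  exact ⟨congrFun h2 0, congrFun h2 1, congrFun h2 2⟩

theorem STR : S_STR := by
  intro A _ _ Z N E X ζ ν a b p q l m n h hq hNq
  have h6 : (6 : A) * algebraMap ℝ A (1 / 6) = 1 := by
    have e : (6 : A) = algebraMap ℝ A 6 := (map_ofNat (algebraMap ℝ A) 6).symm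
    rw [e, ← map_mul]; norm_num
  have hE6 : E (algebraMap ℝ A (1 / 6)) = 0 := E.map_algebraMap _
  obtain ⟨t, ht⟩ : ∃ t : A, t = p + algebraMap ℝ A (1 / 6) * Z b := ⟨_, rfl⟩
  have ht6 : Z b = 6 * (t - p) := by
    rw [ht]; linear_combination (- Z b) * h6
  have hEt : E t = 0 := by
    rw [ht, map_add, Derivation.leibniz, hE6, h.EZ, h.Eb, h.Ep, map_zero]; simp
  -- the coordinates of ζ
  have e : ∀ i, (Z p + 2 * l) * X i + (2 * p + Z q + 2 * m + a) * ζ i
      + (2 * n - 4 * q - 2 * b) * ν i = 0 := by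
    intro i
    have k := h.ZN (ζ i)
    rw [h.Nζ, h.Zζ, h.Eζ] at k
    simp only [map_add, map_sub, map_neg, neg_mul, Derivation.leibniz, smul_eq_mul, dnum596,
      h.ZX, h.Zζ, h.Nν] at k
    linear_combination k
  obtain ⟨e1, e2, e3⟩ := frame_unique596 h.det e
  -- the coordinates of ν
  have f : ∀ i, (Z l - n * a + N a + b * p - (b + q) * a) * X i
      + (l + Z m - n * b + N b + b * q - (b + q) * b) * ζ i
      + (-2 * m + Z n + a + (a + p)) * ν i = 0 := by
    intro i
    have k := h.ZN (ν i)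
    rw [h.Nν, h.Zν, h.Eν] at k
    simp only [map_add, map_sub, map_neg, neg_mul, Derivation.leibniz, smul_eq_mul, dnum596,
      h.ZX, h.Zζ, h.Zν, h.NX, h.Nζ] at k
    linear_combination k
  obtain ⟨f1, f2, f3⟩ := frame_unique596 h.det f
  have hn : n = 2 * q + b := by
    apply ncancel 2 two_ne_zero
    push_cast
    linear_combination e3
  have hZn : Z n = 2 * p + 6 * t := by
    rw [hn, map_add, Derivation.leibniz, dnum596, ht6, hq]
    simp only [smul_eq_mul]
    ring
  have ha : a = -2 * t - 3 * p := by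
    apply ncancel 3 three_ne_zero
    push_cast
    linear_combination f3 + e2 - hZn - hq
  have hm : 2 * m = 2 * t - 3 * p := by
    linear_combination e2 - hq - ha
  have hl : 2 * l = - Z p := by linear_combination e1
  have hNp : N p = p * (3 * q + b) := by
    have k := h.ZN q
    rw [hNq, hq, h.Eq, Derivation.leibniz, dnum596] at k
    simp only [smul_eq_mul] at k
    apply ncancel 4 four_ne_zero
    push_cast
    linear_combination -k
  have hZm : 2 * Z m = 2 * Z t - 3 * Z p := by
    have k := congrArg Z hm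
    simp only [map_sub, Derivation.leibniz, smul_eq_mul, dnum596] at k
    linear_combination k
  have hZl : 2 * Z l = - Z (Z p) := by
    have k := congrArg Z hl
    simp only [map_neg, Derivation.leibniz, smul_eq_mul, dnum596] at k
    linear_combination k
  have hNa : N a = -2 * N t - 3 * N p := by
    have k := congrArg N ha
    simp only [map_sub, map_neg, neg_mul, Derivation.leibniz, smul_eq_mul, dnum596] at k
    linear_combination k
  refine ⟨t, ⟨h.Eb, h.Ep, h.Eq, hEt, h.EZ, h.EN, fun f => ?_, ht6, hq, hNp, ?_, ?_⟩, ha, hm, hl, hn⟩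
  · rw [h.ZN f]; ring
  · apply ncancel 2 two_ne_zero
    push_cast
    linear_combination 2 * f2 - hl - hZm + 2 * b * hn
  · linear_combination -2 * f1 + hZl + 2 * hNa - 6 * hNp - 2 * a * hn - (6 * q + 4 * b) * ha

end Pool.Agent.Run7.h71.CD
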