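import Pool.Agent.Run7.h596.CD_Num

set_option autoImplicit false

set_option linter.unusedSimpArgs false

namespace Pool.Agent.Run7.h71.CD

theorem THETA1 : S_THETA1 := by
  intro A _ _ Z N E β b p q t h u hu
  have zn : ∀ f, E f = 0 → Z (N f) - N (Z f) = -(b + q) * Z f := fun f hf => by
    rw [h.ZN f, hf, mul_zero, add_zero]
  have hEu : E u = 0 := by
    rw [hu, map_sub, h.EZ, h.EZ, h.Ep, map_zero, map_zero]
    simp only [Derivation.leibniz, smul_eq_mul, dnum596, h.Eb, h.Ep]
    ring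
  have hEt1 : E (Z t) = 0 := by rw [h.EZ, h.Et, map_zero]
  have hEu1 : E (Z u) = 0 := by rw [h.EZ, hEu, map_zero]
  have hEp1 : E (Z p) = 0 := by rw [h.EZ, h.Ep, map_zero]
  have hp2 : Z (Z p) = u + 8 * b * p := by rw [hu]; ring
  -- (1)
  have k1 := zn b h.Eb
  rw [h.Zb, h.Nb] at k1
  simp only [map_add, map_sub, Derivation.leibniz, Derivation.leibniz_pow, smul_eq_mul, dnum596,
    h.Zb, h.Zq, h.Np, hp2] at k1
  have hN := h.Nt
  rw [hp2] at hN
  have c1 : 2 * Z (Z t) = 36 * b * t + 7 * u := by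
    linear_combination (-2) * k1 - 3 * hN
  have nt : 4 * N t = 4 * t * (2 * b + 3 * q) - u := by linear_combination hN
  -- (2)
  have k2 := zn p h.Ep
  rw [h.Np] at k2
  simp only [map_add, map_sub, Derivation.leibniz, Derivation.leibniz_pow, smul_eq_mul, dnum596,
    h.Zb, h.Zq, h.Np, hp2] at k2
  have np1 : N (Z p) = Z p * (4 * q + 2 * b) + 6 * p * (p + t) := by linear_combination -k2
  have k3 := zn (Z p) hEp1
  rw [np1, hp2] at k3
  simp only [map_add, map_sub, Derivation.leibniz, Derivation.leibniz_pow, smul_eq_mul, dnum596,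
    h.Zb, h.Zq, h.Np, h.Nb, hp2] at k3
  have nu : N u = u * (5 * q + 3 * b) + 18 * t * Z p + 14 * p * Z t := by
    linear_combination -k3
  have k4 := zn t h.Et
  have k4' := congrArg Z nt
  simp only [map_add, map_sub, Derivation.leibniz, Derivation.leibniz_pow, smul_eq_mul, dnum596,
    h.Zb, h.Zq, h.Np, h.Nb, hp2] at k4'
  have nt1 : 4 * N (Z t) = Z t * (12 * b + 16 * q) + 48 * t ^ 2 - Z u := by
    linear_combination k4' - 4 * k4
  have k5 := zn (Z t) hEt1
  have k5' := congrArg Z nt1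
  have k5'' := congrArg N c1
  simp only [map_add, map_sub, Derivation.leibniz, Derivation.leibniz_pow, smul_eq_mul, dnum596,
    h.Zb, h.Zq, h.Np, h.Nb, hp2] at k5' k5''
  have c2 : Z (Z u) = 32 * b * u + 240 * t * Z t - 204 * p * Z t - 396 * Z p * t := by
    apply ncancel 2 two_ne_zero
    push_cast
    linear_combination 2 * k5' - 8 * k5 - 4 * k5'' - 36 * b * nt - 28 * nu
      + (12 * b + 16 * q) * c1 + 4 * (b + q) * c1
  -- (3)
  have k7 := zn u hEu
  rw [nu] at k7
  simp only [map_add, map_sub, Derivation.leibniz, Derivation.leibniz_pow, smul_eq_mul, dnum596,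
    h.Zb, h.Zq, h.Np, h.Nb, hp2] at k7
  have nu1 : N (Z u) = Z u * (6 * q + 4 * b) + u * (51 * p + 36 * t) + 32 * Z p * Z t
      + 396 * b * p * t := by
    linear_combination -k7 + 7 * p * c1
  have k6 := zn (Z u) hEu1
  rw [nu1, c2] at k6
  simp only [map_add, map_sub, Derivation.leibniz, Derivation.leibniz_pow, smul_eq_mul, dnum596,
    h.Zb, h.Zq, h.Np, h.Nb, hp2, c2, np1, nu] at k6
  refine ⟨c1, c2, ?_⟩
  apply ncancel 160 (by norm_num)
  push_cast
  linear_combination 4 * k6 - 64 * Z p * c1 + (240 * Z t - 396 * Z p) * nt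
    + (240 * t - 204 * p) * nt1

end Pool.Agent.Run7.h71.CD
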