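import Mathlib

/-! # Tate reductions of modular representations: definitions -/

set_option autoImplicit false

namespace Run7.h596

/-- `ρ` is indecomposable: in every decomposition of `V` into two stable subspaces one of them
is zero. -/
def Indec {k G V : Type} [Field k] [Group G] [AddCommGroup V] [Module k V]
    (ρ : Representation k G V) : Prop :=
  ∀ A B : Submodule k V,
    (∀ g : G, ∀ x ∈ A, ρ g x ∈ A) →
    (∀ g : G, ∀ x ∈ B, ρ g x ∈ B) →
    IsCompl A B → A = ⊥ ∨ B = ⊥

/-- The stable subspace `W` is indecomposable (in the form used in the problem). -/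
def IndecSub {k G V : Type} [Field k] [Group G] [AddCommGroup V] [Module k V]
    (ρ : Representation k G V) (W : Submodule k V) : Prop :=
  ∀ A B : Submodule k V, (∀ g : G, ∀ x ∈ A, ρ g x ∈ A) → (∀ g : G, ∀ x ∈ B, ρ g x ∈ B) →
    A ⊓ B = ⊥ → A ⊔ B = W → A = ⊥ ∨ B = ⊥

/-- `z` acts on `V` with `z ^ 2 = 1`, and `σ` is isomorphic to the representation
of `G` on `ker (z - 1) / im (z - 1)`. -/
def IsTate {k G V V' : Type} [Field k] [Group G] [AddCommGroup V] [Module k V]
    [AddCommGroup V'] [Module k V'] (ρ : Representation k G V) (z : G)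
    (σ : Representation k G V') : Prop :=
  (∀ x, ρ z (ρ z x) = x) ∧
  ∃ π : LinearMap.ker (ρ z - 1) →ₗ[k] V', Function.Surjective π ∧
    (∀ x, π x = 0 ↔ (x : V) ∈ LinearMap.range (ρ z - 1)) ∧
    ∀ (g : G) (x y : LinearMap.ker (ρ z - 1)), (y : V) = ρ g (x : V) → π y = σ g (π x)

/-- `TateTame G Z V ρ`: the representation `ρ` of `G` on `V` can be reduced to a one-dimensional
one by finitely many steps of the following four kinds:
* `step`: replace `V` by `ker (z - 1) / im (z - 1)`, where `z ∈ Z` acts on `V` with `z ^ 2 = 1`;
* `enlarge`: if `V` is indecomposable, replace `Z` by the set of all `z ∈ G` whose action on `V`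
  commutes with the action of `G`;
* `split`: replace `V` by `ker (z - 1) / im (z - 1)` and `Z` by `∅`, where the action of `z ∈ G` on
  `V` commutes with the action of `G` and satisfies `z ^ 2 = 1`, and where `(z - 1) X` has even
  dimension for every indecomposable direct summand `X` of `V` of even dimension;
* `restrict`: replace `G` by a group `H` mapping to `G` (for example a subgroup), and `Z` by its
  preimage. -/
inductive TateTame {k : Type} [Field k] : ∀ (G : Type) [Group G] (_ : Set G) (V : Type)
    [AddCommGroup V] [Module k V], Representation k G V → Prop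
  | one (G : Type) [Group G] (Z : Set G) (V : Type) [AddCommGroup V] [Module k V]
      (ρ : Representation k G V) :
      Module.finrank k V = 1 → TateTame G Z V ρ
  | step (G : Type) [Group G] (Z : Set G) (V V' : Type) [AddCommGroup V] [Module k V]
      [AddCommGroup V'] [Module k V'] (ρ : Representation k G V) (σ : Representation k G V')
      (z : G) : z ∈ Z → IsTate ρ z σ → TateTame G Z V' σ → TateTame G Z V ρ
  | enlarge (G : Type) [Group G] (Z : Set G) (V : Type) [AddCommGroup V] [Module k V]
      (ρ : Representation k G V) : Indec ρ →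
      TateTame G {z | ∀ (g : G) (x : V), ρ z (ρ g x) = ρ g (ρ z x)} V ρ → TateTame G Z V ρ
  | split (G : Type) [Group G] (Z : Set G) (V V' : Type) [AddCommGroup V] [Module k V]
      [AddCommGroup V'] [Module k V'] (ρ : Representation k G V) (σ : Representation k G V')
      (z : G) : (∀ (g : G) (x : V), ρ z (ρ g x) = ρ g (ρ z x)) → IsTate ρ z σ →
      (∀ X Y : Submodule k V, (∀ g, ∀ x ∈ X, ρ g x ∈ X) → (∀ g, ∀ x ∈ Y, ρ g x ∈ Y) →
        IsCompl X Y → IndecSub ρ X → Even (Module.finrank k X) →
        Even (Module.finrank k (X.map (ρ z - 1)))) →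
      TateTame G ∅ V' σ → TateTame G Z V ρ
  | restrict (G H : Type) [Group G] [Group H] (φ : H →* G) (Z : Set G) (V : Type)
      [AddCommGroup V] [Module k V] (ρ : Representation k G V) :
      TateTame H (φ ⁻¹' Z) V (ρ.comp φ) → TateTame G Z V ρ

end Run7.h596
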