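import Pool.Agent.Run7.h596.Main

/-! # From idempotents to the decomposition of `V ⊗ V*` -/

set_option autoImplicit false
open scoped TensorProduct

namespace Run7.h596

open TensorProduct

theorem final_of_strong (G : Type) [Group G] (k : Type) [Field k] [CharP k 2] (V : Type)
    [AddCommGroup V] [Module k V] [FiniteDimensional k V] (ρ : Representation k G V)
    (hodd : Odd (Module.finrank k V))
    (hS : ∀ f, Ad ρ f → 4 ∣ Module.finrank k (LinearMap.range f)) :
    ∃ (L : Submodule k (V ⊗[k] Module.Dual k V)) (n : ℕ)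
      (W : Fin n → Submodule k (V ⊗[k] Module.Dual k V)),
      Module.finrank k L = 1 ∧
      (∀ g : G, ∀ x ∈ L,
        (Representation.tprod ρ (Representation.dual ρ)) g x = x) ∧
      (∀ i, ∀ g : G, ∀ x ∈ W i,
        (Representation.tprod ρ (Representation.dual ρ)) g x ∈ W i) ∧
      (∀ i, W i ≠ ⊥ ∧ 4 ∣ Module.finrank k (W i) ∧
        ∀ A B : Submodule k (V ⊗[k] Module.Dual k V),
          (∀ g : G, ∀ x ∈ A,
            (Representation.tprod ρ (Representation.dual ρ)) g x ∈ A) →
          (∀ g : G, ∀ x ∈ B,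
            (Representation.tprod ρ (Representation.dual ρ)) g x ∈ B) →
          A ⊓ B = ⊥ → A ⊔ B = W i → A = ⊥ ∨ B = ⊥) ∧
      iSupIndep W ∧ IsCompl L (⨆ i, W i) := by
  classical
  have hdim : (Module.finrank k V : k) = 1 := by
    obtain ⟨m, hm⟩ := hodd
    rw [hm]
    push_cast
    have h2 : (2 : k) = 0 := CharTwo.two_eq_zero
    rw [h2, zero_mul, zero_add]
  -- the projection to the trace zero part
  let e : V ⊗[k] Module.Dual k V →ₗ[k] V ⊗[k] Module.Dual k V :=
    (LinearMap.toSpanSingleton k _ (cc k V)) ∘ₗ contractRight k V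
  have he : ∀ x, e x = (contractRight k V x) • cc k V := fun x => rfl
  let f : V ⊗[k] Module.Dual k V →ₗ[k] V ⊗[k] Module.Dual k V := LinearMap.id - e
  have hfx : ∀ x, f x = x - (contractRight k V x) • cc k V := fun x => rfl
  have hf : Ad ρ f := by
    refine ⟨?_, ?_, ?_, ?_⟩
    · intro g
      apply LinearMap.ext
      intro x
      rw [LinearMap.comp_apply, LinearMap.comp_apply, hfx, hfx, ev_map_rep, map_sub, map_smul,
        map_cc_rep]
    · intro x
      rw [hfx (f x), hfx, map_sub, map_smul, ev_cc, hdim, smul_eq_mul, mul_one, sub_self, zero_smul,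
        sub_zero]
    · rw [hfx, ev_cc, hdim, one_smul, sub_self]
    · intro x
      rw [hfx, map_sub, map_smul, ev_cc, hdim, smul_eq_mul, mul_one, sub_self]
  obtain ⟨ι, _, π, p1, p2, p3, p4, p5, p6⟩ := exists_prim
      (Representation.tprod ρ ρ.dual) _ f rfl (by
        intro g x
        exact LinearMap.congr_fun (hf.comm g) x) hf.idem
  let E := Fintype.equivFin ι
  have q1 : ∀ i x, π i (f x) = π i x := by
    intro i x
    rw [← p4 x, map_sum, Finset.sum_eq_single i]
    · exact p2 i x
    · intro j _ hj; exact p3 i j hj.symm x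
    · intro h; exact absurd (Finset.mem_univ i) h
  have q2 : ∀ i x, f (π i x) = π i x := by
    intro i x
    rw [← p4, Finset.sum_eq_single i]
    · exact p2 i x
    · intro j _ hj; exact p3 j i hj x
    · intro h; exact absurd (Finset.mem_univ i) h
  have hA : ∀ i, Ad ρ (π i) := by
    intro i
    refine ⟨?_, p2 i, ?_, ?_⟩
    · intro g; apply LinearMap.ext; intro x; exact p1 i g x
    · rw [← q1, hf.fc, map_zero]
    · intro x; rw [← q2]; exact hf.ef _
  have hsup : (⨆ i, LinearMap.range (π (E.symm i))) = LinearMap.range f := by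
    apply le_antisymm
    · apply iSup_le
      rintro i _ ⟨x, rfl⟩
      exact ⟨_, q2 _ x⟩
    · rintro _ ⟨x, rfl⟩
      rw [← p4]
      apply Submodule.sum_mem
      intro i _
      have h1 : LinearMap.range (π (E.symm (E i))) ≤ ⨆ i, LinearMap.range (π (E.symm i)) :=
        le_iSup (fun i => LinearMap.range (π (E.symm i))) (E i)
      rw [Equiv.symm_apply_apply] at h1
      exact h1 ⟨x, rfl⟩
  have hcc : cc k V ≠ 0 := by
    intro h0
    have h3 := ev_cc (k := k) (V := V)
    rw [h0, map_zero, hdim] at h3
    exact one_ne_zero h3.symm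
  refine ⟨Submodule.span k {cc k V}, Fintype.card ι, fun i => LinearMap.range (π (E.symm i)),
    finrank_span_singleton hcc, ?_, ?_, ?_, ?_, ?_⟩
  · intro g x hx
    obtain ⟨c, rfl⟩ := Submodule.mem_span_singleton.mp hx
    rw [map_smul]
    congr 1
    exact map_cc_rep ρ g
  · rintro i g _ ⟨x, rfl⟩
    exact ⟨_, p1 _ g x⟩
  · intro i
    refine ⟨(p5 _).1, hS _ (hA _), ?_⟩
    intro A B hA hB h1 h2
    exact (p5 (E.symm i)).2 A B hA hB h1 h2
  · rw [iSupIndep_def]
    intro i
    rw [Submodule.disjoint_def]
    intro x hx hx'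
    have h1 : π (E.symm i) x = x := by
      obtain ⟨y, rfl⟩ := hx
      exact p2 _ y
    have h2 : (⨆ j, ⨆ (_ : j ≠ i), LinearMap.range (π (E.symm j)))
        ≤ LinearMap.ker (π (E.symm i)) := by
      apply iSup_le
      intro j
      apply iSup_le
      rintro hj _ ⟨y, rfl⟩
      rw [LinearMap.mem_ker]
      apply p3
      intro h
      exact hj (E.symm.injective h.symm)
    have h3 := h2 hx'
    rw [LinearMap.mem_ker, h1] at h3
    exact h3
  · rw [hsup]
    constructor
    · rw [Submodule.disjoint_def]
      rintro x hx ⟨y, rfl⟩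
      obtain ⟨c, hc⟩ := Submodule.mem_span_singleton.mp hx
      have h1 := hf.ef y
      rw [← hc, map_smul, ev_cc, hdim, smul_eq_mul, mul_one] at h1
      rw [← hc, h1, zero_smul]
    · rw [codisjoint_iff, eq_top_iff]
      intro x _
      have h1 : x = (contractRight k V x) • cc k V + f x := by
        rw [hfx]; abel
      rw [h1]
      exact Submodule.add_mem_sup (Submodule.smul_mem _ _ (Submodule.mem_span_singleton_self _))
        ⟨x, rfl⟩

end Run7.h596
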