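import Mathlib

/-! # Linear algebra of square-zero operators with a homotopy -/

set_option autoImplicit false
open scoped TensorProduct

namespace Run7.h596

/-- rank-nullity on a subspace -/
theorem finrank_map_add {k V W : Type*} [Field k] [AddCommGroup V] [Module k V]
    [AddCommGroup W] [Module k W] [FiniteDimensional k V] (g : V →ₗ[k] W) (S : Submodule k V) :
    Module.finrank k (S.map g) + Module.finrank k (S ⊓ LinearMap.ker g : Submodule k V)
      = Module.finrank k S := by
  have h := LinearMap.finrank_range_add_finrank_ker (g.domRestrict S)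
  have h1 : LinearMap.range (g.domRestrict S) = S.map g := by
    ext x; simp
  have h2 : Module.finrank k (LinearMap.ker (g.domRestrict S))
      = Module.finrank k (S ⊓ LinearMap.ker g : Submodule k V) := by
    have h3 : (S ⊓ LinearMap.ker g : Submodule k V)
        = (LinearMap.ker (g.domRestrict S)).map S.subtype := by
      ext x
      simp only [Submodule.mem_inf, LinearMap.mem_ker, Submodule.mem_map, Submodule.subtype_apply,
        Subtype.exists, LinearMap.domRestrict_apply]
      constructor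
      · rintro ⟨a, b⟩
        exact ⟨x, a, b, rfl⟩
      · rintro ⟨y, a, b, rfl⟩
        exact ⟨a, b⟩
    rw [h3, Submodule.finrank_map_subtype_eq]
  rw [h1, h2] at h
  exact h

/-- A homotopy retraction of `(V, D)`, `D² = 0`, onto `V'` (with zero operator). -/
structure Ret (k : Type*) {V : Type*} (V' : Type*) [Field k] [AddCommGroup V] [Module k V]
    [AddCommGroup V'] [Module k V'] (D : V →ₗ[k] V) where
  i : V' →ₗ[k] V
  p : V →ₗ[k] V'
  h : V →ₗ[k] V
  pi : ∀ x, p (i x) = x
  Di : ∀ x, D (i x) = 0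
  pD : ∀ x, p (D x) = 0
  DD : ∀ x, D (D x) = 0
  hom : ∀ x, D (h x) + h (D x) + i (p x) = x

section

variable {k V V' : Type*} [Field k] [AddCommGroup V] [Module k V]
  [AddCommGroup V'] [Module k V'] {D : V →ₗ[k] V} (R : Ret k V' D)

include R

theorem Ret.DhD (x : V) : D (R.h (D x)) = D x := by
  have := R.hom (D x)
  rw [R.DD, map_zero, R.pD, map_zero, add_zero, add_zero] at this
  exact this

/-- compression of an operator to `V'` -/
def Ret.comp (f : V →ₗ[k] V) : V' →ₗ[k] V' := R.p ∘ₗ f ∘ₗ R.i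

@[simp] theorem Ret.comp_apply (f : V →ₗ[k] V) (x : V') : R.comp f x = R.p (f (R.i x)) := rfl

theorem Ret.comp_mul (f g : V →ₗ[k] V) (hf : ∀ x, f (D x) = D (f x))
    (hg : ∀ x, g (D x) = D (g x)) : R.comp (f * g) = R.comp f * R.comp g := by
  ext x
  simp only [Ret.comp_apply, Module.End.mul_apply]
  have h1 := R.hom (g (R.i x))
  have h2 : D (g (R.i x)) = 0 := by rw [← hg, R.Di, map_zero]
  rw [h2, map_zero, add_zero] at h1
  conv_lhs => rw [← h1]
  rw [map_add, map_add, hf, R.pD, zero_add]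

theorem Ret.comp_one : R.comp (1 : V →ₗ[k] V) = 1 := by
  ext x; simp [R.pi]

theorem Ret.comp_pow (f : V →ₗ[k] V) (hf : ∀ x, f (D x) = D (f x)) (n : ℕ) :
    R.comp ((f ^ n : Module.End k V)) = (R.comp f : Module.End k V') ^ n := by
  induction n with
  | zero => simp only [pow_zero]; exact R.comp_one
  | succ n ih =>
    rw [pow_succ, pow_succ, ← ih]
    apply R.comp_mul
    · intro x
      clear ih
      induction n with
      | zero => simp
      | succ n ih => rw [pow_succ', Module.End.mul_apply, Module.End.mul_apply, ih, hf]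
    · exact hf

theorem Ret.comp_nilp (f : Module.End k V) (hf : ∀ x, f (D x) = D (f x)) (h : IsNilpotent f) :
    IsNilpotent (R.comp f : Module.End k V') := by
  obtain ⟨n, hn⟩ := h
  refine ⟨n, ?_⟩
  rw [← R.comp_pow f hf, hn]
  ext x; simp

/-- The rank of an idempotent commuting with `D`. -/
theorem Ret.rank_eq [FiniteDimensional k V] (f : V →ₗ[k] V) (hf : ∀ x, f (D x) = D (f x))
    (hff : ∀ x, f (f x) = f x) :
    Module.finrank k (LinearMap.range f) = 2 * Module.finrank k (LinearMap.range (f ∘ₗ D))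
      + Module.finrank k (LinearMap.range (R.comp f)) := by
  have h1 := finrank_map_add D (LinearMap.range f)
  have h2 := finrank_map_add R.p (LinearMap.range f ⊓ LinearMap.ker D)
  have h3 : (LinearMap.range f).map D = LinearMap.range (f ∘ₗ D) := by
    ext x
    simp only [Submodule.mem_map, LinearMap.mem_range, exists_exists_eq_and, LinearMap.comp_apply, hf]
  have h4 : (LinearMap.range f ⊓ LinearMap.ker D).map R.p = LinearMap.range (R.comp f) := by
    ext x
    simp only [Submodule.mem_map, Submodule.mem_inf, LinearMap.mem_range, LinearMap.mem_ker,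
      Ret.comp_apply]
    constructor
    · rintro ⟨y, ⟨⟨w, rfl⟩, hy⟩, rfl⟩
      refine ⟨R.p (f w), ?_⟩
      have h5 := R.hom (f w)
      rw [hy, map_zero, add_zero] at h5
      have h6 : R.p (f (f w)) = R.p (f (D (R.h (f w)))) + R.p (f (R.i (R.p (f w)))) := by
        rw [← map_add, ← map_add, h5]
      rw [hf, R.pD, zero_add, hff] at h6
      exact h6.symm
    · rintro ⟨y, rfl⟩
      exact ⟨f (R.i y), ⟨⟨_, rfl⟩, by rw [← hf, R.Di, map_zero]⟩, rfl⟩
  have h5 : (LinearMap.range f ⊓ LinearMap.ker D ⊓ LinearMap.ker R.p : Submodule k V)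
      = LinearMap.range (f ∘ₗ D) := by
    ext x
    simp only [Submodule.mem_inf, LinearMap.mem_range, LinearMap.mem_ker, LinearMap.comp_apply]
    constructor
    · rintro ⟨⟨⟨w, rfl⟩, hy⟩, hz⟩
      refine ⟨R.h (f w), ?_⟩
      have h5 := R.hom (f w)
      rw [hy, map_zero, add_zero, hz, map_zero, add_zero] at h5
      rw [h5, hff]
    · rintro ⟨w, rfl⟩
      exact ⟨⟨⟨_, rfl⟩, by rw [hf, R.DD]⟩, by rw [hf, R.pD]⟩
  rw [h3] at h1
  rw [h4, h5] at h2
  omega

/-- The rank of `f D` is the trace of `f D h`. -/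
theorem Ret.rank_eq_trace [FiniteDimensional k V] (f : V →ₗ[k] V) (hf : ∀ x, f (D x) = D (f x))
    (hff : ∀ x, f (f x) = f x) :
    (Module.finrank k (LinearMap.range (f ∘ₗ D)) : k) = LinearMap.trace k V (f ∘ₗ D ∘ₗ R.h) := by
  have h1 : LinearMap.IsProj (LinearMap.range (f ∘ₗ D)) (f ∘ₗ D ∘ₗ R.h) := by
    constructor
    · intro x; exact ⟨R.h x, rfl⟩
    · rintro _ ⟨x, rfl⟩
      simp only [LinearMap.comp_apply]
      rw [hf x, R.DhD, ← hf, hff]
  rw [h1.trace]

/-- trace formula -/
theorem Ret.trace_eq [FiniteDimensional k V] [FiniteDimensional k V']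
    (f N : V →ₗ[k] V) (hf : ∀ x, f (D x) = D (f x))
    (hff : ∀ x, f (f x) = f x) (hN : ∀ x, N (D x) + D (N x) = D x) :
    (Module.finrank k (LinearMap.range (f ∘ₗ D)) : k)
      = LinearMap.trace k V (f ∘ₗ N) - LinearMap.trace k V' (R.comp (f ∘ₗ N)) := by
  rw [R.rank_eq_trace f hf hff]
  have h1 : LinearMap.trace k V' (R.comp (f ∘ₗ N)) = LinearMap.trace k V (f ∘ₗ N ∘ₗ R.i ∘ₗ R.p) := by
    have := LinearMap.trace_comp_comm' (R := k) (R.p) (f ∘ₗ N ∘ₗ R.i)
    rw [← LinearMap.comp_assoc, ← LinearMap.comp_assoc] at this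
    simp only [← LinearMap.comp_assoc] at this ⊢
    rw [this]; rfl
  rw [h1]
  have h2 : LinearMap.trace k V (f ∘ₗ N) - LinearMap.trace k V (f ∘ₗ N ∘ₗ R.i ∘ₗ R.p)
      = LinearMap.trace k V (f ∘ₗ N ∘ₗ D ∘ₗ R.h) + LinearMap.trace k V ((f ∘ₗ N ∘ₗ R.h) ∘ₗ D) := by
    rw [← map_sub, ← map_add]
    congr 1
    ext x
    simp only [LinearMap.sub_apply, LinearMap.add_apply, LinearMap.comp_apply]
    rw [← map_add, ← map_add, ← map_sub, ← map_sub]
    congr 2
    have := R.hom x
    rw [sub_eq_iff_eq_add, this]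
  have h3 : LinearMap.trace k V ((f ∘ₗ N ∘ₗ R.h) ∘ₗ D)
      = LinearMap.trace k V (D ∘ₗ (f ∘ₗ N ∘ₗ R.h)) := LinearMap.trace_comp_comm' _ _
  rw [h2, h3, ← map_add]
  congr 1
  ext x
  simp only [LinearMap.add_apply, LinearMap.comp_apply]
  rw [← hf, ← map_add, hN]

/-- commuting nilpotent operators do not contribute -/
theorem Ret.trace_nilp [FiniteDimensional k V] (ν : Module.End k V)
    (hν : ∀ x, ν (D x) = D (ν x)) (h : IsNilpotent ν) :
    LinearMap.trace k V (ν ∘ₗ D ∘ₗ R.h) = 0 := by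
  have h1 : ∀ n : ℕ, ((ν ∘ₗ D ∘ₗ R.h : Module.End k V)) ^ (n + 1) = (ν ^ (n + 1)) ∘ₗ D ∘ₗ R.h := by
    intro n
    induction n with
    | zero => simp
    | succ n ih =>
      rw [pow_succ, ih, pow_succ (ν) (n+1)]
      ext x
      simp only [Module.End.mul_apply, LinearMap.comp_apply]
      rw [hν, R.DhD]
  have h2 : IsNilpotent (ν ∘ₗ D ∘ₗ R.h : Module.End k V) := by
    obtain ⟨n, hn⟩ := h
    refine ⟨n + 1, ?_⟩
    rw [h1, pow_succ, hn]
    ext x; simp
  exact (LinearMap.isNilpotent_trace_of_isNilpotent h2).eq_zero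

end

end Run7.h596
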