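import Pool.Agent.Run7.h596.Prim

/-! # Tate tame modules -/

set_option autoImplicit false
open scoped TensorProduct

namespace Run7.h596

open TensorProduct

section

variable {k V V' : Type} [Field k] [AddCommGroup V] [Module k V]
    [AddCommGroup V'] [Module k V']

/-- the dual retraction -/
noncomputable def Ret.dual {z : V →ₗ[k] V} (R : Ret k V' (z - LinearMap.id))
    (w : Module.Dual k V →ₗ[k] Module.Dual k V) (hw : w = z.dualMap) :
    Ret k (Module.Dual k V') (w - LinearMap.id) where
  i := R.p.dualMap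
  p := R.i.dualMap
  h := R.h.dualMap
  pi φ := by ext x; simp [R.pi]
  Di φ := by
    subst hw
    ext x
    have := R.pD x
    simp only [LinearMap.sub_apply, LinearMap.id_apply, map_sub, sub_eq_zero] at this
    simp [this]
  pD φ := by
    subst hw
    ext x
    have := R.Di x
    simp only [LinearMap.sub_apply, LinearMap.id_apply, sub_eq_zero] at this
    simp [this]
  DD φ := by
    subst hw
    ext x
    have := R.DD x
    simp only [LinearMap.sub_apply, LinearMap.id_apply, map_sub] at this
    have h2 := congrArg φ this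
    simp only [map_sub, map_zero] at h2
    simp only [LinearMap.sub_apply, LinearMap.id_apply, map_sub, LinearMap.dualMap_apply,
      LinearMap.zero_apply]
    exact h2
  hom φ := by
    subst hw
    ext x
    have := R.hom x
    simp only [LinearMap.sub_apply, LinearMap.id_apply, map_sub] at this
    have h2 := congrArg φ this
    simp only [map_sub, map_add] at h2
    simp only [LinearMap.sub_apply, LinearMap.add_apply, LinearMap.id_apply, map_sub,
      LinearMap.dualMap_apply]
    rw [← h2]; abel

/-- the isomorphism with endomorphisms -/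
noncomputable def theta (k V : Type) [Field k] [AddCommGroup V] [Module k V]
    [FiniteDimensional k V] : V ⊗[k] Module.Dual k V ≃ₗ[k] (V →ₗ[k] V) :=
  (TensorProduct.comm k V (Module.Dual k V)).trans (dualTensorHomEquiv k V V)

theorem theta_tmul [FiniteDimensional k V] (v : V) (φ : Module.Dual k V) (x : V) :
    theta k V (v ⊗ₜ φ) x = φ x • v := by
  simp [theta]

theorem theta_map [FiniteDimensional k V] [FiniteDimensional k V'] (a : V →ₗ[k] V')
    (b : V' →ₗ[k] V) (t : V ⊗[k] Module.Dual k V) :
    theta k V' (map a b.dualMap t) = a ∘ₗ theta k V t ∘ₗ b := by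
  induction t using TensorProduct.induction_on with
  | zero => simp
  | tmul v φ =>
    ext x
    simp only [map_tmul, theta_tmul, LinearMap.comp_apply, LinearMap.dualMap_apply, map_smul]
  | add x y hx hy => rw [map_add, map_add, hx, hy, map_add, LinearMap.add_comp, LinearMap.comp_add]

theorem trace_theta [FiniteDimensional k V] (t : V ⊗[k] Module.Dual k V) :
    LinearMap.trace k V (theta k V t) = contractRight k V t := by
  induction t using TensorProduct.induction_on with
  | zero => simp
  | tmul v φ =>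
    have : theta k V (v ⊗ₜ φ) = dualTensorHom k V V (φ ⊗ₜ v) := by
      ext x; simp [theta_tmul]
    rw [this, LinearMap.trace_eq_contract_apply, contractRight_apply, contractLeft_apply]
  | add x y hx hy => rw [map_add, map_add, hx, hy, map_add]

/-- the invariant element of `V ⊗ V*` -/
noncomputable def cc (k V : Type) [Field k] [AddCommGroup V] [Module k V]
    [FiniteDimensional k V] : V ⊗[k] Module.Dual k V := (theta k V).symm LinearMap.id

theorem theta_cc [FiniteDimensional k V] : theta k V (cc k V) = LinearMap.id := by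
  simp [cc]

theorem ev_cc [FiniteDimensional k V] :
    contractRight k V (cc k V) = (Module.finrank k V : k) := by
  rw [← trace_theta, theta_cc, LinearMap.trace_id]

theorem map_cc [FiniteDimensional k V] [FiniteDimensional k V'] (a : V →ₗ[k] V')
    (b : V' →ₗ[k] V) (h : a ∘ₗ b = LinearMap.id) : map a b.dualMap (cc k V) = cc k V' := by
  apply (theta k V').injective
  rw [theta_map, theta_cc, theta_cc, LinearMap.id_comp, h]

theorem ev_map (a : V →ₗ[k] V') (b : V' →ₗ[k] V) (h : b ∘ₗ a = LinearMap.id)
    (t : V ⊗[k] Module.Dual k V) :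
    contractRight k V' (map a b.dualMap t) = contractRight k V t := by
  induction t using TensorProduct.induction_on with
  | zero => simp
  | tmul v φ =>
    have := LinearMap.congr_fun h v
    simp only [LinearMap.comp_apply, LinearMap.id_apply] at this
    simp [this]
  | add x y hx hy => rw [map_add, map_add, hx, hy, map_add]

end

section

variable {k G V V' : Type} [Field k] [Group G] [AddCommGroup V] [Module k V]
    [AddCommGroup V'] [Module k V']

theorem dual_eq (ρ : Representation k G V) (g : G) : ρ.dual g = (ρ g⁻¹).dualMap := rfl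

theorem rho_inv (ρ : Representation k G V) (g : G) : ρ g ∘ₗ ρ g⁻¹ = LinearMap.id := by
  have := (map_mul ρ g g⁻¹).symm
  rw [mul_inv_cancel, map_one] at this
  exact this

theorem rho_inv' (ρ : Representation k G V) (g : G) : ρ g⁻¹ ∘ₗ ρ g = LinearMap.id := by
  have := (map_mul ρ g⁻¹ g).symm
  rw [inv_mul_cancel, map_one] at this
  exact this

theorem central_inv (ρ : Representation k G V) (z : G)
    (hz : ∀ (g : G) (x : V), ρ z (ρ g x) = ρ g (ρ z x)) (g : G) (x : V) :
    ρ z⁻¹ (ρ g x) = ρ g (ρ z⁻¹ x) := by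
  have h1 : ∀ y, ρ z (ρ z⁻¹ y) = y := fun y => LinearMap.congr_fun (rho_inv ρ z) y
  have h2 : ∀ y, ρ z⁻¹ (ρ z y) = y := fun y => LinearMap.congr_fun (rho_inv' ρ z) y
  calc ρ z⁻¹ (ρ g x) = ρ z⁻¹ (ρ g (ρ z (ρ z⁻¹ x))) := by rw [h1]
    _ = ρ z⁻¹ (ρ z (ρ g (ρ z⁻¹ x))) := by rw [← hz g (ρ z⁻¹ x)]
    _ = _ := h2 _

theorem dual_central (ρ : Representation k G V) (z : G)
    (hz : ∀ (g : G) (x : V), ρ z (ρ g x) = ρ g (ρ z x)) (g : G) (x : Module.Dual k V) :
    ρ.dual z (ρ.dual g x) = ρ.dual g (ρ.dual z x) := by
  rw [dual_eq, dual_eq]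
  ext v
  simp only [LinearMap.dualMap_apply]
  rw [central_inv ρ z hz]

/-- admissible idempotents: they live on the trace-zero part of `V ⊗ V*` -/
structure Ad [FiniteDimensional k V] (ρ : Representation k G V)
    (f : V ⊗[k] Module.Dual k V →ₗ[k] V ⊗[k] Module.Dual k V) : Prop where
  comm : ∀ g, f ∘ₗ map (ρ g) (ρ.dual g) = map (ρ g) (ρ.dual g) ∘ₗ f
  idem : ∀ x, f (f x) = f x
  fc : f (cc k V) = 0
  ef : ∀ x, contractRight k V (f x) = 0

theorem map_cc_rep [FiniteDimensional k V] (ρ : Representation k G V) (g : G) :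
    map (ρ g) (ρ.dual g) (cc k V) = cc k V := by
  rw [dual_eq]
  exact map_cc _ _ (rho_inv ρ g)

theorem ev_map_rep (ρ : Representation k G V) (g : G) (t : V ⊗[k] Module.Dual k V) :
    contractRight k V (map (ρ g) (ρ.dual g) t) = contractRight k V t := by
  rw [dual_eq]
  exact ev_map _ _ (rho_inv' ρ g) t

theorem exists_transpose [FiniteDimensional k V]
    {ρ : Representation k G V} (T : Module.End k (Module.Dual k V))
    (hT : ∀ g x, T (ρ.dual g x) = ρ.dual g (T x)) :
    ∃ T' : V →ₗ[k] V, T'.dualMap = T ∧ ∀ g x, T' (ρ g x) = ρ g (T' x) := by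
  let e := Module.evalEquiv k V
  let T' : Module.End k V := e.symm.toLinearMap ∘ₗ T.dualMap ∘ₗ e.toLinearMap
  have hT' : ∀ (φ : Module.Dual k V) (v : V), φ (T' v) = (T φ) v := by
    intro φ v
    change φ ((Module.evalEquiv k V).symm (T.dualMap (e v))) = _
    rw [Module.apply_evalEquiv_symm_apply]
    simp [e]
  refine ⟨T', ?_, ?_⟩
  · ext φ v
    exact hT' φ v
  · intro g x
    rw [← sub_eq_zero]
    rw [← Module.forall_dual_apply_eq_zero_iff k]
    intro φ
    rw [map_sub, sub_eq_zero, hT']
    have h1 : φ ((ρ g) (T' x)) = ((ρ g).dualMap φ) (T' x) := rfl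
    rw [h1, hT']
    have h2 : (ρ g).dualMap = ρ.dual g⁻¹ := by rw [dual_eq, inv_inv]
    rw [h2, hT, dual_eq, inv_inv]
    rfl

theorem trace_dualMap [FiniteDimensional k V] (T : V →ₗ[k] V) :
    LinearMap.trace k (Module.Dual k V) T.dualMap = LinearMap.trace k V T :=
  LinearMap.congr_fun (LinearMap.trace_transpose k V) T

theorem fitting_dual [IsAlgClosed k] [FiniteDimensional k V] [Nontrivial V]
    {ρ : Representation k G V} (h : Indec ρ) (T : Module.End k (Module.Dual k V))
    (hT : ∀ g x, T (ρ.dual g x) = ρ.dual g (T x)) :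
    ∃ c : k, IsNilpotent (T - c • (1 : Module.End k (Module.Dual k V))) := by
  let e := Module.evalEquiv k V
  let T' : Module.End k V := e.symm.toLinearMap ∘ₗ T.dualMap ∘ₗ e.toLinearMap
  have hT' : ∀ (φ : Module.Dual k V) (v : V), φ (T' v) = (T φ) v := by
    intro φ v
    change φ ((Module.evalEquiv k V).symm (T.dualMap (e v))) = _
    rw [Module.apply_evalEquiv_symm_apply]
    simp [e]
  have hcomm : ∀ g x, T' (ρ g x) = ρ g (T' x) := by
    intro g x
    rw [← sub_eq_zero]
    rw [← Module.forall_dual_apply_eq_zero_iff k]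
    intro φ
    rw [map_sub, sub_eq_zero, hT']
    have h1 : φ ((ρ g) (T' x)) = ((ρ g).dualMap φ) (T' x) := rfl
    rw [h1, hT']
    have h2 : (ρ g).dualMap = ρ.dual g⁻¹ := by rw [dual_eq, inv_inv]
    rw [h2, hT, dual_eq, inv_inv]
    rfl
  obtain ⟨c, n, hn⟩ := h.fitting T' hcomm
  refine ⟨c, n, ?_⟩
  have h3 : ∀ (m : ℕ) (φ : Module.Dual k V) (v : V),
      (((T - c • (1 : Module.End k (Module.Dual k V))) ^ m) φ) v
        = φ (((T' - c • (1 : Module.End k V)) ^ m) v) := by
    intro m
    induction m with
    | zero => intro φ v; simp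
    | succ m ih =>
      intro φ v
      rw [pow_succ, Module.End.mul_apply, ih, pow_succ', Module.End.mul_apply]
      simp only [LinearMap.sub_apply, LinearMap.smul_apply, Module.End.one_apply, map_sub,
        map_smul, hT']
  ext φ v
  rw [h3, hn]
  simp

theorem dual_comp {ρ : Representation k G V} {σ : Representation k G V'} {z : G}
    (R : Ret k V' (ρ z - LinearMap.id)) (hR : ∀ g, σ g = R.comp (ρ g))
    (S : Ret k (Module.Dual k V') (ρ.dual z - LinearMap.id))
    (hSi : S.i = R.p.dualMap) (hSp : S.p = R.i.dualMap) (g : G) :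
    σ.dual g = S.comp (ρ.dual g) := by
  ext φ v
  change φ (σ g⁻¹ v) = (S.p ((ρ g⁻¹).dualMap (S.i φ))) v
  rw [hR, hSi, hSp]; rfl

theorem nilp_of_trace [FiniteDimensional k V] (T : Module.End k V) (c : k)
    (h : IsNilpotent (T - c • (1 : Module.End k V))) (h0 : LinearMap.trace k V T = 0)
    (hd : (Module.finrank k V : k) ≠ 0) : IsNilpotent T := by
  have h1 := trace_scalar_nilp T c h
  rw [h0] at h1
  have h3 : c = 0 := by
    rcases mul_eq_zero.mp h1.symm with h | h
    · exact h
    · exact absurd h hd
  rw [h3, zero_smul, sub_zero] at h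
  exact h

/-- One Tate step preserves admissibility. -/
theorem Ad.step [CharP k 2] [FiniteDimensional k V] [FiniteDimensional k V']
    {ρ : Representation k G V} {σ : Representation k G V'} {z : G}
    (hz : ∀ (g : G) (x : V), ρ z (ρ g x) = ρ g (ρ z x))
    (R : Ret k V' (ρ z - LinearMap.id)) (hR : ∀ g, σ g = R.comp (ρ g))
    (S : Ret k (Module.Dual k V') (ρ.dual z - LinearMap.id))
    (hSi : S.i = R.p.dualMap) (hSp : S.p = R.i.dualMap)
    {f : V ⊗[k] Module.Dual k V →ₗ[k] V ⊗[k] Module.Dual k V} (hf : Ad ρ f) :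
    Ad σ ((R.tensor S).comp f) := by
  have hDf := (comm_iff (z := map (ρ z) (ρ.dual z)) f).mpr (hf.comm z)
  have hσd : ∀ g, σ.dual g = S.comp (ρ.dual g) := dual_comp R hR S hSi hSp
  have hmap : ∀ g, map (σ g) (σ.dual g) = (R.tensor S).comp (map (ρ g) (ρ.dual g)) := by
    intro g
    rw [Ret.tensor_comp, ← TensorProduct.map_comp, ← TensorProduct.map_comp, hσd, hR]
    rfl
  have hg : ∀ g x, map (ρ g) (ρ.dual g)
      ((map (ρ z) (ρ.dual z) - LinearMap.id : V ⊗[k] Module.Dual k V →ₗ[k] _) x)
      = (map (ρ z) (ρ.dual z) - LinearMap.id : V ⊗[k] Module.Dual k V →ₗ[k] _)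
        (map (ρ g) (ρ.dual g) x) := by
    intro g
    apply (comm_iff (z := map (ρ z) (ρ.dual z)) _).mpr
    rw [← TensorProduct.map_comp, ← TensorProduct.map_comp]
    congr 1
    · ext x; exact (hz g x).symm
    · ext1 x; exact (dual_central ρ z hz g x).symm
  have hI : (R.tensor S).i = map R.i R.p.dualMap := by
    rw [← hSi]; rfl
  have hP : (R.tensor S).p = map R.p R.i.dualMap := by
    rw [← hSp]; rfl
  have hpi : R.p ∘ₗ R.i = LinearMap.id := by ext x; exact R.pi x
  constructor
  · intro g
    rw [hmap]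
    have e1 := (R.tensor S).comp_mul f (map (ρ g) (ρ.dual g)) hDf (hg g)
    have e2 := (R.tensor S).comp_mul (map (ρ g) (ρ.dual g)) f (hg g) hDf
    have e3 : (f * map (ρ g) (ρ.dual g) : Module.End k _) = map (ρ g) (ρ.dual g) * f := hf.comm g
    rw [e3, e2] at e1
    exact e1.symm
  · have e1 := (R.tensor S).comp_mul f f hDf hDf
    have e2 : (f * f : Module.End k _) = f := LinearMap.ext (fun x => hf.idem x)
    rw [e2] at e1
    intro x
    exact (LinearMap.congr_fun e1 x).symm
  · rw [← map_cc R.p R.i hpi, ← hP]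
    have h1 := (R.tensor S).hom (cc k V)
    have h2 : (map (ρ z) (ρ.dual z) - LinearMap.id : V ⊗[k] Module.Dual k V →ₗ[k] _) (cc k V)
        = 0 := by
      rw [LinearMap.sub_apply, map_cc_rep, LinearMap.id_apply, sub_self]
    rw [h2, map_zero, add_zero] at h1
    have h3 := congrArg (fun t => (R.tensor S).p (f t)) h1
    simp only [map_add, hf.fc, map_zero, hDf, (R.tensor S).pD, zero_add] at h3
    exact h3
  · intro x
    have h4 : ∀ t, contractRight k V' t = contractRight k V ((R.tensor S).i t) := by
      intro t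
      rw [hI, ev_map _ _ hpi]
    rw [h4]
    change contractRight k V ((R.tensor S).i ((R.tensor S).p (f ((R.tensor S).i x)))) = 0
    have h1 := (R.tensor S).hom (f ((R.tensor S).i x))
    rw [← hDf, (R.tensor S).Di, map_zero, map_zero, add_zero] at h1
    have h2 : ∀ t, contractRight k V
        ((map (ρ z) (ρ.dual z) - LinearMap.id : V ⊗[k] Module.Dual k V →ₗ[k] _) t) = 0 := by
      intro t
      rw [LinearMap.sub_apply, map_sub, ev_map_rep, LinearMap.id_apply, sub_self]
    have h3 := congrArg (contractRight k V) h1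
    rw [map_add, h2, zero_add, hf.ef] at h3
    exact h3

theorem central_tensor {ρ : Representation k G V} {z : G}
    (hz : ∀ (g : G) (x : V), ρ z (ρ g x) = ρ g (ρ z x)) (g : G) :
    map (LinearMap.id : V →ₗ[k] V) (ρ.dual z) ∘ₗ map (ρ g) (ρ.dual g)
      = map (ρ g) (ρ.dual g) ∘ₗ map LinearMap.id (ρ.dual z) := by
  rw [← TensorProduct.map_comp, ← TensorProduct.map_comp]
  congr 1
  ext1 x; exact dual_central ρ z hz g x

theorem comp_dual {G H : Type} [Group G] [Group H] (φ : H →* G) (ρ : Representation k G V)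
    (h : H) : Representation.dual (ρ.comp φ) h = ρ.dual (φ h) := by
  rw [dual_eq, dual_eq, ← map_inv]; rfl

/-- The main induction. -/
theorem main_ind [IsAlgClosed k] [CharP k 2] (G : Type) [Group G] (Z : Set G) (V : Type)
    [AddCommGroup V] [Module k V]
    (ρ : Representation k G V) (h : TateTame G Z V ρ) :
    ∀ (_ : FiniteDimensional k V), (∀ z ∈ Z, ∀ (g : G) (x : V), ρ z (ρ g x) = ρ g (ρ z x)) →
    Odd (Module.finrank k V) ∧ (∀ f, Ad ρ f → 2 ∣ Module.finrank k (LinearMap.range f)) ∧
    (∀ f, Ad ρ f → (∀ z ∈ Z, IsNilpotent (ptr (f ∘ₗ map LinearMap.id (ρ.dual z)) :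
      Module.End k V) ∧ IsNilpotent (ptl f : Module.End k (Module.Dual k V))) →
      4 ∣ Module.finrank k (LinearMap.range f)) := by
  induction h with
  | one G Z V ρ h1 =>
    intro _ hZ
    have h0 : ∀ f, Ad ρ f → Module.finrank k (LinearMap.range f) = 0 := by
      intro f hf
      have h2 : cc k V ≠ 0 := by
        intro h0
        have h3 := ev_cc (k := k) (V := V)
        rw [h0, map_zero, h1, Nat.cast_one] at h3
        exact one_ne_zero h3.symm
      have h3 : Module.finrank k (V ⊗[k] Module.Dual k V) = 1 := by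
        rw [Module.finrank_tensorProduct, Subspace.dual_finrank_eq, h1]
      have h4 : f = 0 := by
        apply LinearMap.ext
        intro x
        obtain ⟨c, rfl⟩ := (finrank_eq_one_iff_of_nonzero' (cc k V) h2).mp h3 x
        rw [map_smul, hf.fc, smul_zero, LinearMap.zero_apply]
      rw [h4]; simp
    refine ⟨by rw [h1]; exact odd_one, fun f hf => by rw [h0 f hf]; exact dvd_zero _,
      fun f hf _ => by rw [h0 f hf]; exact dvd_zero _⟩
  | step G Z V V' ρ σ z hz hT h ih =>
    intro _ hZ
    have hc := hZ z hz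
    have : FiniteDimensional k V' := hT.finite
    obtain ⟨R, hR⟩ := exists_ret hT hc
    have hzz : ρ.dual z = (ρ z).dualMap := by
      rw [dual_eq]
      congr 1
      ext x
      have h1 : ρ z⁻¹ (ρ z (ρ z x)) = ρ z x := LinearMap.congr_fun (rho_inv' ρ z) (ρ z x)
      rw [hT.1] at h1
      exact h1
    let S := R.dual (ρ.dual z) hzz
    have hSi : S.i = R.p.dualMap := rfl
    have hSp : S.p = R.i.dualMap := rfl
    have hstep : ∀ f, Ad ρ f → Ad σ ((R.tensor S).comp f) :=
      fun f hf => hf.step hc R hR S hSi hSp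
    have hcomp : ∀ (g : G) (z' : G), z' ∈ Z → ∀ x, σ z' (σ g x) = σ g (σ z' x) := by
      intro g z' hz' x
      have hD : ∀ g x, ρ g ((ρ z - LinearMap.id : V →ₗ[k] V) x)
          = (ρ z - LinearMap.id : V →ₗ[k] V) (ρ g x) := by
        intro g x
        simp only [LinearMap.sub_apply, LinearMap.id_apply, map_sub, hc]
      have e1 := R.comp_mul (ρ z') (ρ g) (hD z') (hD g)
      have e2 := R.comp_mul (ρ g) (ρ z') (hD g) (hD z')
      have e3 : (ρ z' * ρ g : Module.End k V) = ρ g * ρ z' := by
        ext x; exact hZ z' hz' g x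
      rw [e3, e2, ← hR, ← hR] at e1
      exact (LinearMap.congr_fun e1 x).symm
    obtain ⟨i1, i2, i3⟩ := ih inferInstance (fun z' hz' g x => hcomp g z' hz' x)
    refine ⟨?_, ?_, ?_⟩
    · have h1 := R.rank_eq LinearMap.id (fun x => rfl) (fun x => rfl)
      have h2 : R.comp LinearMap.id = LinearMap.id := R.comp_one
      rw [h2, LinearMap.range_id, LinearMap.range_id, finrank_top, finrank_top] at h1
      rw [h1]
      exact Even.add_odd (even_two_mul _) i1
    · intro f hf
      have h1 := (R.tensor S).rank_eq f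
        ((comm_iff (z := map (ρ z) (ρ.dual z)) f).mpr (hf.comm z)) hf.idem
      rw [h1]
      exact dvd_add (dvd_mul_right _ _) (i2 _ (hstep f hf))
    · intro f hf h1
      obtain ⟨m, hm⟩ := R.step S f (hf.comm z) hf.idem (h1 z hz).1 (h1 z hz).2
      rw [hm]
      refine dvd_add (dvd_mul_right _ _) (i3 _ (hstep f hf) ?_)
      intro z' hz'
      have h2 := (h1 z' hz').2
      refine ⟨?_, ?_⟩
      · replace h1 := fun z hz => (h1 z hz).1
        have hc' := hZ z' hz'
        have e1 : (R.tensor S).comp f ∘ₗ map LinearMap.id (σ.dual z')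
            = (R.tensor S).comp (f ∘ₗ map LinearMap.id (ρ.dual z')) := by
          have hσd : σ.dual z' = S.comp (ρ.dual z') := dual_comp R hR S hSi hSp z'
          have e2 : map (LinearMap.id : V' →ₗ[k] V') (σ.dual z')
              = (R.tensor S).comp (map LinearMap.id (ρ.dual z')) := by
            rw [Ret.tensor_comp, ← TensorProduct.map_comp, ← TensorProduct.map_comp, hσd,
              LinearMap.id_comp]
            congr 1
            ext x; exact (R.pi x).symm
          rw [e2]
          refine ((R.tensor S).comp_mul f _ ?_ ?_).symm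
          · exact (comm_iff (z := map (ρ z) (ρ.dual z)) f).mpr (hf.comm z)
          · exact (comm_iff (z := map (ρ z) (ρ.dual z)) _).mpr (central_tensor hc' z)
        have hcomm : (f ∘ₗ map LinearMap.id (ρ.dual z')) ∘ₗ map (ρ z) (ρ.dual z)
            = map (ρ z) (ρ.dual z) ∘ₗ (f ∘ₗ map LinearMap.id (ρ.dual z')) := by
          rw [LinearMap.comp_assoc, central_tensor hc' z, ← LinearMap.comp_assoc, hf.comm z,
            LinearMap.comp_assoc]
        rw [e1, R.ptr_comp S _ hcomm]
        apply R.comp_nilp _ _ (h1 z' hz')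
        exact (comm_iff (z := ρ z) _).mpr (ptr_conj _ _ _ _ S.zz S.zz hcomm)
      · rw [R.ptl_comp S _ (hf.comm z)]
        apply S.comp_nilp _ _ h2
        exact (comm_iff (z := ρ.dual z) _).mpr (ptl_conj _ _ _ _ R.zz R.zz (hf.comm z))
  | enlarge G Z V ρ hi h ih =>
    intro _ hZ
    obtain ⟨i1, i2, i3⟩ := ih inferInstance (fun z hz => hz)
    refine ⟨i1, i2, ?_⟩
    intro f hf _
    have : Nontrivial V := by
      apply Module.nontrivial_of_finrank_pos (R := k)
      exact i1.pos
    have hdim : (Module.finrank k V : k) ≠ 0 := by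
      intro h0
      rw [CharP.cast_eq_zero_iff k 2] at h0
      exact (Nat.not_even_iff_odd.mpr i1) (even_iff_two_dvd.mpr h0)
    obtain ⟨ι, _, π, p1, p2, p3, p4, p5, p6⟩ := exists_prim
      (Representation.tprod ρ ρ.dual) _ f rfl (by
        intro g x
        exact LinearMap.congr_fun (hf.comm g) x) hf.idem
    rw [p6]
    apply Finset.dvd_sum
    intro i _
    have q1 : ∀ x, π i (f x) = π i x := by
      classical
      intro x
      rw [← p4 x, map_sum, Finset.sum_eq_single i]
      · exact p2 i x
      · intro j _ hj; exact p3 i j hj.symm x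
      · intro h; exact absurd (Finset.mem_univ i) h
    have q2 : ∀ x, f (π i x) = π i x := by
      classical
      intro x
      rw [← p4, Finset.sum_eq_single i]
      · exact p2 i x
      · intro j _ hj; exact p3 j i hj x
      · intro h; exact absurd (Finset.mem_univ i) h
    have hA : Ad ρ (π i) := by
      refine ⟨?_, p2 i, ?_, ?_⟩
      · intro g; apply LinearMap.ext; intro x; exact p1 i g x
      · rw [← q1, hf.fc, map_zero]
      · intro x; rw [← q2]; exact hf.ef _
    have hev := i2 _ hA
    have hcommd : ∀ z : G, (∀ (g : G) (x : V), ρ z (ρ g x) = ρ g (ρ z x)) → ∀ g,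
        (π i ∘ₗ map LinearMap.id (ρ.dual z)) ∘ₗ map (ρ g) (ρ.dual g)
            = map (ρ g) (ρ.dual g) ∘ₗ (π i ∘ₗ map LinearMap.id (ρ.dual z)) := by
      intro z hz g
      rw [LinearMap.comp_assoc, central_tensor hz g, ← LinearMap.comp_assoc, hA.comm g,
            LinearMap.comp_assoc]
    refine i3 _ hA (fun z hz => ⟨?_, ?_⟩)
    · obtain ⟨c, hc⟩ := hi.fitting (ptr (π i ∘ₗ map LinearMap.id (ρ.dual z))) (by
        intro g x
        have hd1 : ρ.dual g ∘ₗ ρ.dual g⁻¹ = LinearMap.id := rho_inv ρ.dual g
        have hd2 : ρ.dual g⁻¹ ∘ₗ ρ.dual g = LinearMap.id := rho_inv' ρ.dual g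
        exact LinearMap.congr_fun (ptr_conj _ (ρ g) (ρ.dual g) (ρ.dual g⁻¹) hd1 hd2
          (hcommd z hz g)) x)
      have h2 := trace_prim (Representation.tprod ρ ρ.dual) (π i)
        (map LinearMap.id (ρ.dual z)) (p1 i) (fun g x =>
          LinearMap.congr_fun (central_tensor hz g) x) (p5 i).2 hev
      exact nilp_of_trace _ c hc (by rw [← trace_eq_ptr]; exact h2) hdim
    · obtain ⟨c, hc⟩ := fitting_dual hi (ptl (π i)) (by
        intro g x
        exact LinearMap.congr_fun (ptl_conj _ (ρ g) (ρ g⁻¹) (ρ.dual g) (rho_inv ρ g)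
          (rho_inv' ρ g) (hA.comm g)) x)
      have h2 := trace_prim (Representation.tprod ρ ρ.dual) (π i)
        LinearMap.id (p1 i) (fun g x => rfl) (p5 i).2 hev
      rw [LinearMap.comp_id] at h2
      exact nilp_of_trace _ c hc (by rw [← trace_eq_ptl]; exact h2)
        (by rw [Subspace.dual_finrank_eq]; exact hdim)
  | split G Z V V' ρ σ z hc hT hX h ih =>
    intro _ hZ
    have : FiniteDimensional k V' := hT.finite
    obtain ⟨R, hR⟩ := exists_ret hT hc
    have hzz : ρ.dual z = (ρ z).dualMap := by
      rw [dual_eq]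
      congr 1
      ext x
      have h1 : ρ z⁻¹ (ρ z (ρ z x)) = ρ z x := LinearMap.congr_fun (rho_inv' ρ z) (ρ z x)
      rw [hT.1] at h1
      exact h1
    let S := R.dual (ρ.dual z) hzz
    have hSi : S.i = R.p.dualMap := rfl
    have hSp : S.p = R.i.dualMap := rfl
    have hstep : ∀ f, Ad ρ f → Ad σ ((R.tensor S).comp f) :=
      fun f hf => hf.step hc R hR S hSi hSp
    obtain ⟨i1, i2, i3⟩ := ih inferInstance (fun z' hz' g x => absurd hz' (Set.notMem_empty z'))
    have hQ : ∀ f, Ad ρ f → 2 ∣ Module.finrank k (LinearMap.range f) := by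
      intro f hf
      have h1 := (R.tensor S).rank_eq f
        ((comm_iff (z := map (ρ z) (ρ.dual z)) f).mpr (hf.comm z)) hf.idem
      rw [h1]
      exact dvd_add (dvd_mul_right _ _) (i2 _ (hstep f hf))
    refine ⟨?_, hQ, ?_⟩
    · have h1 := R.rank_eq LinearMap.id (fun x => rfl) (fun x => rfl)
      have h2 : R.comp LinearMap.id = LinearMap.id := R.comp_one
      rw [h2, LinearMap.range_id, LinearMap.range_id, finrank_top, finrank_top] at h1
      rw [h1]
      exact Even.add_odd (even_two_mul _) i1
    · intro f hf _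
      obtain ⟨ι, _, π, p1, p2, p3, p4, p5, p6⟩ := exists_prim
        (Representation.tprod ρ ρ.dual) _ f rfl (by
          intro g x
          exact LinearMap.congr_fun (hf.comm g) x) hf.idem
      rw [p6]
      apply Finset.dvd_sum
      intro i _
      have q1 : ∀ x, π i (f x) = π i x := by
        classical
        intro x
        rw [← p4 x, map_sum, Finset.sum_eq_single i]
        · exact p2 i x
        · intro j _ hj; exact p3 i j hj.symm x
        · intro h; exact absurd (Finset.mem_univ i) h
      have q2 : ∀ x, f (π i x) = π i x := by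
        classical
        intro x
        rw [← p4, Finset.sum_eq_single i]
        · exact p2 i x
        · intro j _ hj; exact p3 j i hj x
        · intro h; exact absurd (Finset.mem_univ i) h
      have hA : Ad ρ (π i) := by
        refine ⟨?_, p2 i, ?_, ?_⟩
        · intro g; apply LinearMap.ext; intro x; exact p1 i g x
        · rw [← q1, hf.fc, map_zero]
        · intro x; rw [← q2]; exact hf.ef _
      have hev := hQ _ hA
      have hcommd : ∀ g,
          (π i ∘ₗ map LinearMap.id (ρ.dual z)) ∘ₗ map (ρ g) (ρ.dual g)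
              = map (ρ g) (ρ.dual g) ∘ₗ (π i ∘ₗ map LinearMap.id (ρ.dual z)) := by
        intro g
        rw [LinearMap.comp_assoc, central_tensor hc g, ← LinearMap.comp_assoc, hA.comm g,
              LinearMap.comp_assoc]
      have hd1 : ∀ g, ρ.dual g ∘ₗ ρ.dual g⁻¹ = LinearMap.id := fun g => rho_inv ρ.dual g
      have hd2 : ∀ g, ρ.dual g⁻¹ ∘ₗ ρ.dual g = LinearMap.id := fun g => rho_inv' ρ.dual g
      have ht1 : LinearMap.trace k V (ptr (π i ∘ₗ map LinearMap.id (ρ.dual z)) ∘ₗ
          (ρ z - LinearMap.id) ∘ₗ R.h) = 0 := by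
        apply neg_trace ρ z _ rfl R _ ?_ ?_ hX
        · intro g x
          exact LinearMap.congr_fun (ptr_conj _ (ρ g) (ρ.dual g) (ρ.dual g⁻¹) (hd1 g) (hd2 g)
            (hcommd g)) x
        · intro T hT'
          rw [← trace_ptr, LinearMap.comp_assoc, ← TensorProduct.map_comp, LinearMap.id_comp,
            LinearMap.comp_id]
          apply trace_prim (Representation.tprod ρ ρ.dual) (π i) _ (p1 i) ?_ (p5 i).2 hev
          intro g x
          have : map T (ρ.dual z) ∘ₗ map (ρ g) (ρ.dual g)
              = map (ρ g) (ρ.dual g) ∘ₗ map T (ρ.dual z) := by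
            rw [← TensorProduct.map_comp, ← TensorProduct.map_comp]
            congr 1
            · apply LinearMap.ext; intro x; exact hT' g x
            · apply LinearMap.ext; intro x; exact dual_central ρ z hc g x
          exact LinearMap.congr_fun this x
      have ht2 : LinearMap.trace k (Module.Dual k V) (ptl (π i) ∘ₗ
          (ρ.dual z - LinearMap.id) ∘ₗ S.h) = 0 := by
        obtain ⟨μ, hμ, hμc⟩ := exists_transpose (ρ := ρ) (ptl (π i)) (by
          intro g x
          exact LinearMap.congr_fun (ptl_conj _ (ρ g) (ρ g⁻¹) (ρ.dual g) (rho_inv ρ g)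
            (rho_inv' ρ g) (hA.comm g)) x)
        have e1 : ptl (π i) ∘ₗ (ρ.dual z - LinearMap.id) ∘ₗ S.h
            = (R.h ∘ₗ (ρ z - LinearMap.id) ∘ₗ μ).dualMap := by
          have e2 : (ρ.dual z - LinearMap.id : Module.Dual k V →ₗ[k] Module.Dual k V)
              = (ρ z - LinearMap.id : V →ₗ[k] V).dualMap := by
            apply LinearMap.ext
            intro φ
            rw [LinearMap.sub_apply, hzz]
            ext v
            simp
          have hSh : S.h = R.h.dualMap := rfl
          rw [hSh, e2, ← hμ]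
          rfl
        rw [e1, trace_dualMap]
        have e3 : LinearMap.trace k V (R.h ∘ₗ (ρ z - LinearMap.id) ∘ₗ μ)
            = LinearMap.trace k V (μ ∘ₗ (ρ z - LinearMap.id) ∘ₗ R.h) := by
          rw [LinearMap.trace_comp_comm', LinearMap.comp_assoc]
          rw [← LinearMap.comp_assoc, ← LinearMap.comp_assoc]
          congr 2
          apply LinearMap.ext
          intro x
          simp only [LinearMap.comp_apply, LinearMap.sub_apply, LinearMap.id_apply, map_sub, hμc]
        rw [e3]
        apply neg_trace ρ z _ rfl R μ hμc ?_ hX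
        intro T hT'
        rw [← trace_dualMap]
        have e4 : (μ ∘ₗ T).dualMap = T.dualMap ∘ₗ ptl (π i) := by
          rw [← hμ]; rfl
        rw [e4, LinearMap.trace_comp_comm', ← trace_ptl]
        apply trace_prim (Representation.tprod ρ ρ.dual) (π i) _ (p1 i) ?_ (p5 i).2 hev
        intro g x
        have : map LinearMap.id T.dualMap ∘ₗ map (ρ g) (ρ.dual g)
            = map (ρ g) (ρ.dual g) ∘ₗ map LinearMap.id T.dualMap := by
          rw [← TensorProduct.map_comp, ← TensorProduct.map_comp]
          congr 1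
          apply LinearMap.ext
          intro φ
          rw [dual_eq]
          ext v
          simp only [LinearMap.comp_apply, LinearMap.dualMap_apply, hT']
        exact LinearMap.congr_fun this x
      obtain ⟨m, hm⟩ := R.step' S (π i) (hA.comm z) hA.idem ht1 ht2
      rw [hm]
      exact dvd_add (dvd_mul_right _ _) (i3 _ (hstep _ hA)
        (fun z' hz' => absurd hz' (Set.notMem_empty z')))
  | restrict G H φ Z V ρ h ih =>
    intro _ hZ
    obtain ⟨i1, i2, i3⟩ := ih inferInstance (fun z hz h x => hZ (φ z) hz (φ h) x)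
    have hA : ∀ f, Ad ρ f → Ad (ρ.comp φ) f := by
      intro f hf
      refine ⟨?_, hf.idem, hf.fc, hf.ef⟩
      intro h
      rw [comp_dual]
      exact hf.comm (φ h)
    refine ⟨i1, fun f hf => i2 f (hA f hf), fun f hf h1 => i3 f (hA f hf) ?_⟩
    intro z hz
    rw [comp_dual]
    exact h1 (φ z) hz

end

end Run7.h596
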