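import Pool.Agent.Run7.h596.Rep

/-! # Decomposition into primitive idempotents -/

set_option autoImplicit false
open scoped TensorProduct

namespace Run7.h596

section

variable {k G V : Type} [Field k] [Group G] [AddCommGroup V] [Module k V]

theorem exists_proj (ρ : Representation k G V) (A C : Submodule k V)
    (hA : ∀ g, ∀ x ∈ A, ρ g x ∈ A) (hC : ∀ g, ∀ x ∈ C, ρ g x ∈ C) (h : IsCompl A C) :
    ∃ a : V →ₗ[k] V, (∀ x ∈ A, a x = x) ∧ (∀ x ∈ C, a x = 0) ∧ (∀ x, a x ∈ A) ∧
      ∀ g x, a (ρ g x) = ρ g (a x) := by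
  refine ⟨A.subtype ∘ₗ Submodule.projectionOnto A C h, ?_, ?_, ?_, ?_⟩
  · intro x hx
    have := Submodule.projectionOnto_apply_left h ⟨x, hx⟩
    simp [this]
  · intro x hx
    simp only [LinearMap.comp_apply]
    rw [(Submodule.projectionOnto_apply_eq_zero_iff h).mpr hx, map_zero]
  · intro x
    simp
  · intro g x
    have hx : x ∈ A ⊔ C := by rw [h.sup_eq_top]; trivial
    obtain ⟨y, hy, z, hz, rfl⟩ := Submodule.mem_sup.mp hx
    have e1 : ∀ y ∈ A, (A.subtype ∘ₗ Submodule.projectionOnto A C h) y = y := by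
      intro x hx
      have := Submodule.projectionOnto_apply_left h ⟨x, hx⟩
      simp [this]
    have e2 : ∀ y ∈ C, (A.subtype ∘ₗ Submodule.projectionOnto A C h) y = 0 := by
      intro x hx
      simp only [LinearMap.comp_apply]
      rw [(Submodule.projectionOnto_apply_eq_zero_iff h).mpr hx, map_zero]
    rw [map_add, map_add, map_add, e1 _ (hA g y hy), e2 _ (hC g z hz), e1 y hy, e2 z hz,
      add_zero, add_zero]

theorem split [FiniteDimensional k V] (ρ : Representation k G V) (f : V →ₗ[k] V)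
    (hf : ∀ g x, f (ρ g x) = ρ g (f x)) (hff : ∀ x, f (f x) = f x)
    (hn : ¬ IndecSub ρ (LinearMap.range f)) :
    ∃ a b : V →ₗ[k] V, (∀ g x, a (ρ g x) = ρ g (a x)) ∧ (∀ g x, b (ρ g x) = ρ g (b x)) ∧
      (∀ x, a (a x) = a x) ∧ (∀ x, b (b x) = b x) ∧ (∀ x, a (b x) = 0) ∧ (∀ x, b (a x) = 0) ∧
      (∀ x, a x + b x = f x) ∧
      Module.finrank k (LinearMap.range a) + Module.finrank k (LinearMap.range b)
        = Module.finrank k (LinearMap.range f) ∧ 0 < Module.finrank k (LinearMap.range a) ∧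
      0 < Module.finrank k (LinearMap.range b) := by
  unfold IndecSub at hn
  push Not at hn
  obtain ⟨A, B, hA, hB, hAB, hAB', hA0, hB0⟩ := hn
  have hCs : ∀ g, ∀ x ∈ LinearMap.ker f, ρ g x ∈ LinearMap.ker f := by
    intro g x hx
    rw [LinearMap.mem_ker] at hx ⊢
    rw [hf, hx, map_zero]
  have hfc : IsCompl (LinearMap.range f) (LinearMap.ker f) := by
    have : IsIdempotentElem (f : Module.End k V) := by
      ext x; exact hff x
    exact LinearMap.IsIdempotentElem.isCompl this
  have hcompl : ∀ (A B : Submodule k V), A ⊓ B = ⊥ → A ⊔ B = LinearMap.range f →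
      IsCompl A (B ⊔ LinearMap.ker f) := by
    intro A B h1 h2
    constructor
    · apply Disjoint.disjoint_sup_right_of_disjoint_sup_left (disjoint_iff.mpr h1)
      rw [h2]; exact hfc.disjoint
    · rw [codisjoint_iff, ← sup_assoc, h2]; exact hfc.sup_eq_top
  have hsup : ∀ (B : Submodule k V), (∀ g, ∀ x ∈ B, ρ g x ∈ B) →
      ∀ g, ∀ x ∈ B ⊔ LinearMap.ker f, ρ g x ∈ B ⊔ LinearMap.ker f := by
    intro B hB g x hx
    obtain ⟨y, hy, z, hz, rfl⟩ := Submodule.mem_sup.mp hx
    rw [map_add]
    exact Submodule.add_mem_sup (hB g y hy) (hCs g z hz)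
  obtain ⟨a, ha1, ha2, ha3, ha4⟩ := exists_proj ρ A (B ⊔ LinearMap.ker f) hA (hsup B hB)
    (hcompl A B hAB hAB')
  obtain ⟨b, hb1, hb2, hb3, hb4⟩ := exists_proj ρ B (A ⊔ LinearMap.ker f) hB (hsup A hA)
    (hcompl B A (by rw [inf_comm]; exact hAB) (by rw [sup_comm]; exact hAB'))
  have hra : LinearMap.range a = A := by
    apply le_antisymm
    · rintro _ ⟨x, rfl⟩; exact ha3 x
    · intro x hx; exact ⟨x, ha1 x hx⟩
  have hrb : LinearMap.range b = B := by
    apply le_antisymm
    · rintro _ ⟨x, rfl⟩; exact hb3 x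
    · intro x hx; exact ⟨x, hb1 x hx⟩
  refine ⟨a, b, ha4, hb4, fun x => ha1 _ (ha3 x), fun x => hb1 _ (hb3 x), fun x => ha2 _ ?_,
    fun x => hb2 _ ?_, ?_, ?_, ?_, ?_⟩
  · exact Submodule.mem_sup_left (hb3 x)
  · exact Submodule.mem_sup_left (ha3 x)
  · intro x
    have hx : x ∈ LinearMap.range f ⊔ LinearMap.ker f := by rw [hfc.sup_eq_top]; trivial
    obtain ⟨y, hy, z, hz, rfl⟩ := Submodule.mem_sup.mp hx
    rw [← hAB'] at hy
    obtain ⟨u, hu, v, hv, rfl⟩ := Submodule.mem_sup.mp hy
    have e1 : ∀ y ∈ LinearMap.range f, f y = y := by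
      rintro _ ⟨y, rfl⟩; exact hff y
    have hu' : f u = u := e1 u (by rw [← hAB']; exact Submodule.mem_sup_left hu)
    have hv' : f v = v := e1 v (by rw [← hAB']; exact Submodule.mem_sup_right hv)
    have hz' : f z = 0 := hz
    simp only [map_add, hu', hv', hz', ha1 u hu, hb1 v hv,
      ha2 v (Submodule.mem_sup_left hv), hb2 u (Submodule.mem_sup_left hu),
      ha2 z (Submodule.mem_sup_right hz), hb2 z (Submodule.mem_sup_right hz)]
    abel
  · rw [hra, hrb]
    have := Submodule.finrank_sup_add_finrank_inf_eq A B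
    rw [hAB, hAB', finrank_bot, add_zero] at this
    exact this.symm
  · rw [hra]
    exact Submodule.one_le_finrank_iff.mpr hA0
  · rw [hrb]
    exact Submodule.one_le_finrank_iff.mpr hB0

/-- Every idempotent endomorphism of a representation is a sum of primitive orthogonal ones. -/
theorem exists_prim [FiniteDimensional k V] (ρ : Representation k G V) (N : ℕ) :
    ∀ (f : V →ₗ[k] V) (_ : Module.finrank k (LinearMap.range f) = N)
    (_ : ∀ g x, f (ρ g x) = ρ g (f x)) (_ : ∀ x, f (f x) = f x),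
    ∃ (ι : Type) (_ : Fintype ι) (π : ι → V →ₗ[k] V),
      (∀ i g x, π i (ρ g x) = ρ g (π i x)) ∧ (∀ i x, π i (π i x) = π i x) ∧
      (∀ i j, i ≠ j → ∀ x, π i (π j x) = 0) ∧ (∀ x, ∑ i, π i x = f x) ∧
      (∀ i, LinearMap.range (π i) ≠ ⊥ ∧ IndecSub ρ (LinearMap.range (π i))) ∧
      Module.finrank k (LinearMap.range f) = ∑ i, Module.finrank k (LinearMap.range (π i)) := by
  classical
  induction N using Nat.strong_induction_on with
  | _ N ih =>
    intro f hN hf hff
    by_cases h0 : f = 0
    · refine ⟨Fin 0, inferInstance, fun _ => 0, fun i => i.elim0, fun i => i.elim0,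
        fun i => i.elim0, ?_, fun i => i.elim0, ?_⟩
      · intro x; simp [h0]
      · simp [h0]
    by_cases hn : IndecSub ρ (LinearMap.range f)
    · refine ⟨Unit, inferInstance, fun _ => f, fun _ => hf, fun _ => hff, ?_, ?_, ?_, ?_⟩
      · intro i j hij; exact absurd rfl hij
      · intro x; simp
      · intro _
        refine ⟨?_, hn⟩
        rw [Ne, LinearMap.range_eq_bot]
        exact h0
      · simp
    · obtain ⟨a, b, ha, hb, haa, hbb, hab, hba, hs, hr, hra, hrb⟩ := split ρ f hf hff hn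
      obtain ⟨ι, _, π, h1, h2, h3, h4, h5, h6⟩ := ih _ (by omega) a rfl ha haa
      obtain ⟨κ, _, τ, g1, g2, g3, g4, g5, g6⟩ := ih _ (by omega) b rfl hb hbb
      have e1 : ∀ i x, π i (a x) = π i x := by
        intro i x
        rw [← h4 x, map_sum, Finset.sum_eq_single i]
        · exact h2 i x
        · intro j _ hj; exact h3 i j hj.symm x
        · intro h; exact absurd (Finset.mem_univ i) h
      have e1' : ∀ i x, a (π i x) = π i x := by
        intro i x
        rw [← h4, Finset.sum_eq_single i]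
        · exact h2 i x
        · intro j _ hj; exact h3 j i hj x
        · intro h; exact absurd (Finset.mem_univ i) h
      have e2 : ∀ i x, τ i (b x) = τ i x := by
        intro i x
        rw [← g4 x, map_sum, Finset.sum_eq_single i]
        · exact g2 i x
        · intro j _ hj; exact g3 i j hj.symm x
        · intro h; exact absurd (Finset.mem_univ i) h
      have e2' : ∀ i x, b (τ i x) = τ i x := by
        intro i x
        rw [← g4, Finset.sum_eq_single i]
        · exact g2 i x
        · intro j _ hj; exact g3 j i hj x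
        · intro h; exact absurd (Finset.mem_univ i) h
      refine ⟨ι ⊕ κ, inferInstance, Sum.elim π τ, ?_, ?_, ?_, ?_, ?_, ?_⟩
      · rintro (i | i) g x
        · exact h1 i g x
        · exact g1 i g x
      · rintro (i | i) x
        · exact h2 i x
        · exact g2 i x
      · rintro (i | i) (j | j) hij x
        · exact h3 i j (fun h => hij (by rw [h])) x
        · change π i (τ j x) = 0
          rw [← e1, ← e2', hab, map_zero]
        · change τ i (π j x) = 0
          rw [← e2, ← e1', hba, map_zero]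
        · exact g3 i j (fun h => hij (by rw [h])) x
      · intro x
        rw [Fintype.sum_sum_type]
        simp only [Sum.elim_inl, Sum.elim_inr]
        rw [h4, g4, hs]
      · rintro (i | i)
        · exact h5 i
        · exact g5 i
      · rw [← hr, h6, g6, Fintype.sum_sum_type]
        rfl

theorem nilp_of_restrict (e T : Module.End k V) (h1 : ∀ x, e (T x) = T x)
    (hm : ∀ x ∈ LinearMap.range e, T x ∈ LinearMap.range e)
    (hn : IsNilpotent (LinearMap.restrict T hm : Module.End k (LinearMap.range e))) :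
    IsNilpotent T := by
  obtain ⟨n, hn⟩ := hn
  refine ⟨n + 1, ?_⟩
  ext x
  have h2 : ∀ (m : ℕ) (y : LinearMap.range e),
      ((LinearMap.restrict T hm : Module.End k (LinearMap.range e)) ^ m) y = (T ^ m) (y : V) := by
    intro m
    induction m with
    | zero => intro y; simp
    | succ m ih =>
      intro y
      rw [pow_succ, pow_succ, Module.End.mul_apply, Module.End.mul_apply, ih]
      rfl
  have h3 : T x ∈ LinearMap.range e := ⟨T x, h1 x⟩
  rw [pow_succ, Module.End.mul_apply, ← h2 n ⟨T x, h3⟩, hn]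
  simp

/-- A negligible endomorphism of `V` has trace zero on `(z - 1) V` if all indecomposable summands
`X` of even dimension have `(z - 1) X` of even dimension. -/
theorem neg_trace [IsAlgClosed k] [CharP k 2] [FiniteDimensional k V] {V' : Type}
    [AddCommGroup V'] [Module k V'] (ρ : Representation k G V) (z : G)
    (D : V →ₗ[k] V) (hD : D = ρ z - LinearMap.id) (R : Ret k V' D) (ν : V →ₗ[k] V)
    (hν : ∀ g x, ν (ρ g x) = ρ g (ν x))
    (hneg : ∀ T : V →ₗ[k] V, (∀ g x, T (ρ g x) = ρ g (T x)) → LinearMap.trace k V (ν ∘ₗ T) = 0)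
    (hX : ∀ X Y : Submodule k V, (∀ g, ∀ x ∈ X, ρ g x ∈ X) → (∀ g, ∀ x ∈ Y, ρ g x ∈ Y) →
      IsCompl X Y → IndecSub ρ X → Even (Module.finrank k X) →
      Even (Module.finrank k (X.map (ρ z - 1)))) :
    LinearMap.trace k V (ν ∘ₗ D ∘ₗ R.h) = 0 := by
  classical
  obtain ⟨ι, _, e, p1, p2, p3, p4, p5, p6⟩ := exists_prim ρ _ LinearMap.id rfl (fun _ _ => rfl)
    (fun _ => rfl)
  have hcommD : ∀ T : V →ₗ[k] V, (∀ g x, T (ρ g x) = ρ g (T x)) → ∀ x, T (D x) = D (T x) := by
    intro T hT x
    simp only [hD, LinearMap.sub_apply, LinearMap.id_apply, map_sub, hT]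
  have h0 : ν ∘ₗ D ∘ₗ R.h = ∑ i, e i ∘ₗ (ν ∘ₗ D ∘ₗ R.h) := by
    apply LinearMap.ext
    intro x
    rw [LinearMap.sum_apply]
    exact (p4 _).symm
  rw [h0, map_sum]
  apply Finset.sum_eq_zero
  intro i _
  -- the nilpotent part
  have hnil : ∀ μ : Module.End k V, (∀ g x, μ (ρ g x) = ρ g (μ x)) → IsNilpotent μ →
      LinearMap.trace k V (μ ∘ₗ D ∘ₗ R.h) = 0 :=
    fun μ hμ h => R.trace_nilp μ (hcommD μ hμ) h
  have hstab : ∀ g, ∀ x ∈ LinearMap.range (e i), ρ g x ∈ LinearMap.range (e i) := by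
    rintro g _ ⟨x, rfl⟩; exact ⟨ρ g x, p1 i g x⟩
  have hstab' : ∀ g, ∀ x ∈ LinearMap.ker (e i), ρ g x ∈ LinearMap.ker (e i) := by
    intro g x hx
    rw [LinearMap.mem_ker] at hx ⊢
    rw [p1, hx, map_zero]
  have hcompl : IsCompl (LinearMap.range (e i)) (LinearMap.ker (e i)) := by
    have : IsIdempotentElem (e i : Module.End k V) := by
      ext x; exact p2 i x
    exact LinearMap.IsIdempotentElem.isCompl this
  let X1 : V →ₗ[k] V := e i ∘ₗ ν ∘ₗ (LinearMap.id - e i)
  have hX1 : IsNilpotent (X1 : Module.End k V) := by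
    refine ⟨2, ?_⟩
    ext x
    rw [pow_two, Module.End.mul_apply]
    simp only [X1, LinearMap.comp_apply, LinearMap.sub_apply, LinearMap.id_apply, p2, sub_self,
      map_zero, LinearMap.zero_apply]
  have hX1c : ∀ g x, X1 (ρ g x) = ρ g (X1 x) := by
    intro g x
    simp only [X1, LinearMap.comp_apply, LinearMap.sub_apply, LinearMap.id_apply, p1, map_sub, hν]
  have hne : Nontrivial (LinearMap.range (e i)) := by
    rw [Submodule.nontrivial_iff_ne_bot]; exact (p5 i).1
  let T0 : V →ₗ[k] V := e i ∘ₗ ν ∘ₗ e i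
  have hT0c : ∀ g x, T0 (ρ g x) = ρ g (T0 x) := by
    intro g x
    simp only [T0, LinearMap.comp_apply, p1, hν]
  have hmem : ∀ x, T0 x ∈ LinearMap.range (e i) := fun x => ⟨ν (e i x), rfl⟩
  have hT0m : ∀ x ∈ LinearMap.range (e i), T0 x ∈ LinearMap.range (e i) :=
    fun x _ => hmem x
  obtain ⟨c, hc⟩ := ((p5 i).2.indec hstab).fitting (T0.restrict hT0m) (by
    intro g x
    apply Subtype.ext
    exact hT0c g x)
  let μ : V →ₗ[k] V := T0 - c • e i
  have hμc : ∀ g x, μ (ρ g x) = ρ g (μ x) := by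
    intro g x
    simp only [μ, LinearMap.sub_apply, LinearMap.smul_apply, hT0c, p1, map_sub, map_smul]
  have hμm : ∀ x ∈ LinearMap.range (e i), μ x ∈ LinearMap.range (e i) := by
    intro x hx
    exact Submodule.sub_mem _ (hT0m x hx) (Submodule.smul_mem _ _ ⟨x, rfl⟩)
  have hμn : IsNilpotent (μ : Module.End k V) := by
    apply nilp_of_restrict (e i) μ ?_ hμm
    · have : (LinearMap.restrict μ hμm : Module.End k (LinearMap.range (e i)))
          = T0.restrict hT0m - c • (1 : Module.End k (LinearMap.range (e i))) := by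
        apply LinearMap.ext
        rintro ⟨_, ⟨y, rfl⟩⟩
        apply Subtype.ext
        change T0 (e i y) - c • e i (e i y) = T0 (e i y) - c • e i y
        rw [p2]
      rw [this]; exact hc
    · intro x
      simp only [μ, T0, LinearMap.sub_apply, LinearMap.smul_apply, LinearMap.comp_apply, map_sub,
        map_smul, p2]
  have hdec : e i ∘ₗ (ν ∘ₗ D ∘ₗ R.h) = X1 ∘ₗ D ∘ₗ R.h + (μ ∘ₗ D ∘ₗ R.h + c • (e i ∘ₗ D ∘ₗ R.h)) := by
    apply LinearMap.ext
    intro x
    simp only [X1, μ, T0, LinearMap.comp_apply, LinearMap.add_apply, LinearMap.sub_apply,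
      LinearMap.smul_apply, LinearMap.id_apply, map_sub]
    abel
  rw [hdec, map_add, map_add, hnil X1 hX1c hX1, hnil μ hμc hμn, map_smul, zero_add, zero_add,
    ← R.rank_eq_trace (e i) (hcommD (e i) (p1 i)) (p2 i), smul_eq_mul]
  by_cases hev : Even (Module.finrank k (LinearMap.range (e i)))
  · have h1 := hX _ _ hstab hstab' hcompl (p5 i).2 hev
    have h2 : LinearMap.range (e i ∘ₗ D) = (LinearMap.range (e i)).map (ρ z - 1) := by
      ext x
      simp only [Submodule.mem_map, LinearMap.mem_range, exists_exists_eq_and,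
        LinearMap.comp_apply, hcommD (e i) (p1 i)]
      rw [hD]
      rfl
    rw [h2, (CharP.cast_eq_zero_iff k 2 _).mpr (even_iff_two_dvd.mp h1), mul_zero]
  · have h1 := hneg (e i) (p1 i)
    have h2 : LinearMap.trace k V T0 = 0 := by
      rw [← h1]
      have : T0 = e i ∘ₗ (ν ∘ₗ e i) := rfl
      rw [this, LinearMap.trace_comp_comm', LinearMap.comp_assoc]
      congr 2
      ext x; exact p2 i x
    have h3 := trace_scalar_nilp _ c hc
    have h4 : LinearMap.trace k _ (T0.restrict hT0m) = LinearMap.trace k V T0 :=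
      LinearMap.trace_restrict_eq_of_forall_mem (LinearMap.range (e i)) T0 hmem
    rw [h4, h2] at h3
    rcases mul_eq_zero.mp h3.symm with h | h
    · rw [h, zero_mul]
    · exfalso
      rw [CharP.cast_eq_zero_iff k 2] at h
      exact hev (even_iff_two_dvd.mpr h)

end

end Run7.h596
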