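import Pool.Agent.Run7.h596.Lin

/-! # Partial traces, tensor products of retractions -/

set_option autoImplicit false
open scoped TensorProduct

namespace Run7.h596

open TensorProduct

section

variable {k V U : Type*} [Field k] [AddCommGroup V] [Module k V] [FiniteDimensional k V]
  [AddCommGroup U] [Module k U] [FiniteDimensional k U]

/-- induction for endomorphisms of a tensor product -/
theorem end_induction {P : (V ⊗[k] U →ₗ[k] V ⊗[k] U) → Prop}
    (h0 : P 0) (hm : ∀ (a : V →ₗ[k] V) (b : U →ₗ[k] U), P (map a b))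
    (ha : ∀ F F', P F → P F' → P (F + F')) (F : V ⊗[k] U →ₗ[k] V ⊗[k] U) : P F := by
  obtain ⟨t, rfl⟩ := (homTensorHomEquiv k V U V U).surjective F
  induction t using TensorProduct.induction_on with
  | zero => simpa using h0
  | tmul a b =>
    have : (homTensorHomEquiv k V U V U) (a ⊗ₜ[k] b) = map a b := by
      simp [homTensorHomEquiv_apply]
    rw [this]; exact hm a b
  | add x y hx hy => rw [map_add]; exact ha _ _ hx hy

/-- partial trace over the second factor -/
noncomputable def ptr (F : V ⊗[k] U →ₗ[k] V ⊗[k] U) : V →ₗ[k] V :=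
  (TensorProduct.rid k (V →ₗ[k] V)) ((LinearMap.lTensor (V →ₗ[k] V) (LinearMap.trace k U))
    ((homTensorHomEquiv k V U V U).symm F))

/-- partial trace over the first factor -/
noncomputable def ptl (F : V ⊗[k] U →ₗ[k] V ⊗[k] U) : U →ₗ[k] U :=
  (TensorProduct.lid k (U →ₗ[k] U)) ((LinearMap.rTensor (U →ₗ[k] U) (LinearMap.trace k V))
    ((homTensorHomEquiv k V U V U).symm F))

theorem ptr_add (F F' : V ⊗[k] U →ₗ[k] V ⊗[k] U) : ptr (F + F') = ptr F + ptr F' := by
  simp [ptr]

theorem ptl_add (F F' : V ⊗[k] U →ₗ[k] V ⊗[k] U) : ptl (F + F') = ptl F + ptl F' := by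
  simp [ptl]

@[simp] theorem ptr_zero : ptr (0 : V ⊗[k] U →ₗ[k] V ⊗[k] U) = 0 := by
  simp [ptr]

@[simp] theorem ptl_zero : ptl (0 : V ⊗[k] U →ₗ[k] V ⊗[k] U) = 0 := by
  simp [ptl]

theorem homsymm (a : V →ₗ[k] V) (b : U →ₗ[k] U) :
    (homTensorHomEquiv k V U V U).symm (map a b) = a ⊗ₜ[k] b := by
  rw [LinearEquiv.symm_apply_eq]
  simp [homTensorHomEquiv_apply]

theorem ptr_map (a : V →ₗ[k] V) (b : U →ₗ[k] U) : ptr (map a b) = LinearMap.trace k U b • a := by
  simp [ptr, homsymm]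

theorem ptl_map (a : V →ₗ[k] V) (b : U →ₗ[k] U) : ptl (map a b) = LinearMap.trace k V a • b := by
  simp [ptl, homsymm]

theorem ptr_neg (F : V ⊗[k] U →ₗ[k] V ⊗[k] U) : ptr (-F) = - ptr F := by
  simp [ptr]

theorem ptr_sub (F F' : V ⊗[k] U →ₗ[k] V ⊗[k] U) : ptr (F - F') = ptr F - ptr F' := by
  simp [ptr]

/-- trace against `a ⊗ 1` -/
theorem trace_ptr (F : V ⊗[k] U →ₗ[k] V ⊗[k] U) (a : V →ₗ[k] V) :
    LinearMap.trace k _ (F ∘ₗ map a LinearMap.id) = LinearMap.trace k V (ptr F ∘ₗ a) := by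
  induction F using end_induction with
  | h0 => simp
  | hm b c =>
    rw [ptr_map, ← TensorProduct.map_comp, LinearMap.trace_tensorProduct', LinearMap.smul_comp,
      map_smul, smul_eq_mul, mul_comm, LinearMap.comp_id]
  | ha F F' h h' => rw [LinearMap.add_comp, map_add, h, h', ptr_add, LinearMap.add_comp, map_add]

theorem trace_ptl (F : V ⊗[k] U →ₗ[k] V ⊗[k] U) (a : U →ₗ[k] U) :
    LinearMap.trace k _ (F ∘ₗ map LinearMap.id a) = LinearMap.trace k U (ptl F ∘ₗ a) := by
  induction F using end_induction with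
  | h0 => simp
  | hm b c =>
    rw [ptl_map, ← TensorProduct.map_comp, LinearMap.trace_tensorProduct', LinearMap.smul_comp,
      map_smul, smul_eq_mul, LinearMap.comp_id]
  | ha F F' h h' => rw [LinearMap.add_comp, map_add, h, h', ptl_add, LinearMap.add_comp, map_add]

theorem trace_eq_ptr (F : V ⊗[k] U →ₗ[k] V ⊗[k] U) :
    LinearMap.trace k _ F = LinearMap.trace k V (ptr F) := by
  have := trace_ptr F LinearMap.id
  simpa using this

theorem trace_eq_ptl (F : V ⊗[k] U →ₗ[k] V ⊗[k] U) :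
    LinearMap.trace k _ F = LinearMap.trace k U (ptl F) := by
  have := trace_ptl F LinearMap.id
  simpa using this

theorem ptr_comp_left (F : V ⊗[k] U →ₗ[k] V ⊗[k] U) (a : V →ₗ[k] V) :
    ptr (map a LinearMap.id ∘ₗ F) = a ∘ₗ ptr F := by
  induction F using end_induction with
  | h0 => simp
  | hm b c => rw [← TensorProduct.map_comp, ptr_map, ptr_map, LinearMap.comp_smul, LinearMap.id_comp]
  | ha F F' h h' => rw [LinearMap.comp_add, ptr_add, h, h', ptr_add, LinearMap.comp_add]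

theorem ptr_comp_right (F : V ⊗[k] U →ₗ[k] V ⊗[k] U) (a : V →ₗ[k] V) :
    ptr (F ∘ₗ map a LinearMap.id) = ptr F ∘ₗ a := by
  induction F using end_induction with
  | h0 => simp
  | hm b c => rw [← TensorProduct.map_comp, ptr_map, ptr_map, LinearMap.smul_comp, LinearMap.comp_id]
  | ha F F' h h' => rw [LinearMap.add_comp, ptr_add, h, h', ptr_add, LinearMap.add_comp]

theorem ptl_comp_left (F : V ⊗[k] U →ₗ[k] V ⊗[k] U) (a : U →ₗ[k] U) :
    ptl (map LinearMap.id a ∘ₗ F) = a ∘ₗ ptl F := by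
  induction F using end_induction with
  | h0 => simp
  | hm b c => rw [← TensorProduct.map_comp, ptl_map, ptl_map, LinearMap.comp_smul, LinearMap.id_comp]
  | ha F F' h h' => rw [LinearMap.comp_add, ptl_add, h, h', ptl_add, LinearMap.comp_add]

theorem ptl_comp_right (F : V ⊗[k] U →ₗ[k] V ⊗[k] U) (a : U →ₗ[k] U) :
    ptl (F ∘ₗ map LinearMap.id a) = ptl F ∘ₗ a := by
  induction F using end_induction with
  | h0 => simp
  | hm b c => rw [← TensorProduct.map_comp, ptl_map, ptl_map, LinearMap.smul_comp, LinearMap.comp_id]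
  | ha F F' h h' => rw [LinearMap.add_comp, ptl_add, h, h', ptl_add, LinearMap.add_comp]

theorem ptr_cyc (F : V ⊗[k] U →ₗ[k] V ⊗[k] U) (b : U →ₗ[k] U) :
    ptr (map LinearMap.id b ∘ₗ F) = ptr (F ∘ₗ map LinearMap.id b) := by
  induction F using end_induction with
  | h0 => simp
  | hm a c => rw [← TensorProduct.map_comp, ← TensorProduct.map_comp, ptr_map, ptr_map,
      LinearMap.trace_comp_comm', LinearMap.id_comp, LinearMap.comp_id]
  | ha F F' h h' => rw [LinearMap.comp_add, ptr_add, h, h', LinearMap.add_comp, ptr_add]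

theorem ptl_cyc (F : V ⊗[k] U →ₗ[k] V ⊗[k] U) (b : V →ₗ[k] V) :
    ptl (map b LinearMap.id ∘ₗ F) = ptl (F ∘ₗ map b LinearMap.id) := by
  induction F using end_induction with
  | h0 => simp
  | hm a c => rw [← TensorProduct.map_comp, ← TensorProduct.map_comp, ptl_map, ptl_map,
      LinearMap.trace_comp_comm', LinearMap.id_comp, LinearMap.comp_id]
  | ha F F' h h' => rw [LinearMap.comp_add, ptl_add, h, h', LinearMap.add_comp, ptl_add]

/-- equivariance of the partial trace -/
theorem ptr_conj (F : V ⊗[k] U →ₗ[k] V ⊗[k] U) (a : V →ₗ[k] V) (b b' : U →ₗ[k] U)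
    (hb : b ∘ₗ b' = LinearMap.id) (h3 : b' ∘ₗ b = LinearMap.id)
    (hF : F ∘ₗ map a b = map a b ∘ₗ F) : ptr F ∘ₗ a = a ∘ₗ ptr F := by
  have h1 : map a (LinearMap.id : U →ₗ[k] U) = map a b ∘ₗ map LinearMap.id b' := by
    rw [← TensorProduct.map_comp, hb, LinearMap.comp_id]
  have h2 : map a b = map a LinearMap.id ∘ₗ map LinearMap.id b := by
    rw [← TensorProduct.map_comp, LinearMap.id_comp, LinearMap.comp_id]
  rw [← ptr_comp_right, h1, ← LinearMap.comp_assoc, hF, LinearMap.comp_assoc, h2,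
    LinearMap.comp_assoc, ptr_comp_left, ptr_cyc, LinearMap.comp_assoc, ← TensorProduct.map_comp]
  rw [h3, LinearMap.comp_id, TensorProduct.map_id, LinearMap.comp_id]

theorem ptl_conj (F : V ⊗[k] U →ₗ[k] V ⊗[k] U) (a a' : V →ₗ[k] V) (b : U →ₗ[k] U)
    (ha : a ∘ₗ a' = LinearMap.id) (h3 : a' ∘ₗ a = LinearMap.id)
    (hF : F ∘ₗ map a b = map a b ∘ₗ F) : ptl F ∘ₗ b = b ∘ₗ ptl F := by
  have h1 : map (LinearMap.id : V →ₗ[k] V) b = map a b ∘ₗ map a' LinearMap.id := by
    rw [← TensorProduct.map_comp, ha, LinearMap.comp_id]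
  have h2 : map a b = map LinearMap.id b ∘ₗ map a LinearMap.id := by
    rw [← TensorProduct.map_comp, LinearMap.id_comp, LinearMap.comp_id]
  rw [← ptl_comp_right, h1, ← LinearMap.comp_assoc, hF, LinearMap.comp_assoc, h2,
    LinearMap.comp_assoc, ptl_comp_left, ptl_cyc, LinearMap.comp_assoc, ← TensorProduct.map_comp]
  rw [h3, LinearMap.comp_id, TensorProduct.map_id, LinearMap.comp_id]

end

section

variable {k V U V' U' : Type*} [Field k] [AddCommGroup V] [Module k V] [FiniteDimensional k V]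
  [AddCommGroup U] [Module k U] [FiniteDimensional k U]
  [AddCommGroup V'] [Module k V'] [FiniteDimensional k V']
  [AddCommGroup U'] [Module k U'] [FiniteDimensional k U']

theorem ptr_compress (F : V ⊗[k] U →ₗ[k] V ⊗[k] U) (i : V' →ₗ[k] V) (p : V →ₗ[k] V')
    (i' : U' →ₗ[k] U) (p' : U →ₗ[k] U') :
    ptr (map p p' ∘ₗ F ∘ₗ map i i') = p ∘ₗ ptr (F ∘ₗ map LinearMap.id (i' ∘ₗ p')) ∘ₗ i := by
  induction F using end_induction with
  | h0 => simp
  | hm a c =>
    rw [← TensorProduct.map_comp, ← TensorProduct.map_comp, ← TensorProduct.map_comp,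
      ptr_map, ptr_map, LinearMap.smul_comp, LinearMap.comp_smul, LinearMap.comp_id,
      LinearMap.trace_comp_comm']
    rfl
  | ha F F' h h' =>
    rw [LinearMap.add_comp, LinearMap.comp_add, ptr_add, h, h', LinearMap.add_comp, ptr_add,
      LinearMap.add_comp, LinearMap.comp_add]

theorem ptl_compress (F : V ⊗[k] U →ₗ[k] V ⊗[k] U) (i : V' →ₗ[k] V) (p : V →ₗ[k] V')
    (i' : U' →ₗ[k] U) (p' : U →ₗ[k] U') :
    ptl (map p p' ∘ₗ F ∘ₗ map i i') = p' ∘ₗ ptl (F ∘ₗ map (i ∘ₗ p) LinearMap.id) ∘ₗ i' := by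
  induction F using end_induction with
  | h0 => simp
  | hm a c =>
    rw [← TensorProduct.map_comp, ← TensorProduct.map_comp, ← TensorProduct.map_comp,
      ptl_map, ptl_map, LinearMap.smul_comp, LinearMap.comp_smul, LinearMap.comp_id,
      LinearMap.trace_comp_comm']
    rfl
  | ha F F' h h' =>
    rw [LinearMap.add_comp, LinearMap.comp_add, ptl_add, h, h', LinearMap.add_comp, ptl_add,
      LinearMap.add_comp, LinearMap.comp_add]

end

end Run7.h596
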