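import Pool.Agent.Run7.h596.Step
import Pool.Agent.Run7.h596.Defs

/-! # Tate reductions of representations -/

set_option autoImplicit false
open scoped TensorProduct

namespace Run7.h596

open TensorProduct

section

variable {k G V V' : Type} [Field k] [Group G] [AddCommGroup V] [Module k V]
    [AddCommGroup V'] [Module k V']

/-- A Tate reduction gives a homotopy retraction. -/
theorem exists_ret [CharP k 2] {ρ : Representation k G V} {z : G} {σ : Representation k G V'}
    (h : IsTate ρ z σ) (hz : ∀ (g : G) (x : V), ρ z (ρ g x) = ρ g (ρ z x)) :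
    ∃ R : Ret k V' (ρ z - LinearMap.id), ∀ g, σ g = R.comp (ρ g) := by
  obtain ⟨hzz, π, hs, hk, hg⟩ := h
  set D : V →ₗ[k] V := ρ z - LinearMap.id with hD
  have hDD : ∀ x, D (D x) = 0 := by
    intro x
    simp only [hD, LinearMap.sub_apply, LinearMap.id_apply, map_sub, hzz]
    have := two_smul_zero (k := k) (x - ρ z x)
    rw [← this]; abel
  change ∀ x, π x = 0 ↔ (x : V) ∈ LinearMap.range D at hk
  have hker : ∀ x, x ∈ LinearMap.ker (ρ z - 1) ↔ D x = 0 := fun x => Iff.rfl
  -- a generalized inverse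
  obtain ⟨t, ht⟩ : ∃ t : V →ₗ[k] V, ∀ x, D (t (D x)) = D x := by
    obtain ⟨t0, ht0⟩ := (D.rangeRestrict).exists_rightInverse_of_surjective
      (LinearMap.range_rangeRestrict D)
    obtain ⟨t, ht⟩ := LinearMap.exists_extend t0
    refine ⟨t, fun x => ?_⟩
    have h1 : t (D x) = t0 ⟨D x, LinearMap.mem_range_self D x⟩ := by
      rw [← ht]; rfl
    have h2 := LinearMap.congr_fun ht0 ⟨D x, LinearMap.mem_range_self D x⟩
    have h3 := congrArg Subtype.val h2
    rw [h1]
    exact h3
  obtain ⟨s, hs'⟩ := π.exists_rightInverse_of_surjective (LinearMap.range_eq_top.mpr hs)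
  have hs2 : ∀ y, π (s y) = y := fun y => LinearMap.congr_fun hs' y
  -- the projection to the kernel
  let q : V →ₗ[k] LinearMap.ker (ρ z - 1) :=
    LinearMap.codRestrict _ (LinearMap.id - t ∘ₗ D) (by
      intro x
      rw [hker]
      simp only [LinearMap.sub_apply, LinearMap.id_apply, LinearMap.comp_apply, map_sub, ht,
        sub_self])
  have hq : ∀ x, (q x : V) = x - t (D x) := fun x => rfl
  let p : V →ₗ[k] V' := π ∘ₗ q
  let i : V' →ₗ[k] V := (Submodule.subtype _) ∘ₗ s
  have hDi : ∀ x, D (i x) = 0 := fun x => (hker _).mp (s x).2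
  have hqk : ∀ x (hx : D x = 0), q x = ⟨x, hx⟩ := by
    intro x hx
    apply Subtype.ext
    rw [hq, hx, map_zero, sub_zero]
  have hpi : ∀ x, p (i x) = x := by
    intro x
    have : q (i x) = s x := by rw [hqk _ (hDi x)]; rfl
    change π (q (i x)) = x
    rw [this, hs2]
  have hpD : ∀ x, p (D x) = 0 := by
    intro x
    change π (q (D x)) = 0
    rw [hqk _ (hDD x), hk]
    exact ⟨x, rfl⟩
  have hr : ∀ x, ∃ y, D y = q x - i (p x) := by
    intro x
    have h1 : π (q x - s (p x)) = 0 := by
      rw [map_sub, hs2]; exact sub_self _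
    rw [hk] at h1
    exact h1
  let h : V →ₗ[k] V := t ∘ₗ ((Submodule.subtype _) ∘ₗ q - i ∘ₗ p)
  have hh : ∀ x, h x = t (q x - i (p x)) := fun x => rfl
  refine ⟨⟨i, p, h, hpi, hDi, hpD, hDD, ?_⟩, ?_⟩
  · intro x
    obtain ⟨y, hy⟩ := hr x
    rw [hh, hh, ← hy, ht, hy, hpD, map_zero, sub_zero, hqk _ (hDD x), hq]
    abel
  · intro g
    ext y
    change σ g y = π (q (ρ g (i y)))
    have h1 : D (ρ g (i y)) = 0 := by
      have := hDi y
      simp only [hD, LinearMap.sub_apply, LinearMap.id_apply, sub_eq_zero] at this ⊢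
      rw [hz, this]
    rw [hqk _ h1]
    have h2 := hg g (s y) ⟨ρ g (i y), h1⟩ rfl
    rw [h2, hs2]

theorem IsTate.finite [FiniteDimensional k V] {ρ : Representation k G V} {z : G}
    {σ : Representation k G V'} (h : IsTate ρ z σ) : FiniteDimensional k V' := by
  obtain ⟨_, π, hs, _⟩ := h
  exact Module.Finite.of_surjective π hs

/-- Fitting's lemma: endomorphisms of an indecomposable representation are scalar plus nilpotent. -/
theorem Indec.fitting [IsAlgClosed k] [FiniteDimensional k V] [Nontrivial V]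
    {ρ : Representation k G V} (h : Indec ρ) (T : Module.End k V)
    (hT : ∀ g x, T (ρ g x) = ρ g (T x)) :
    ∃ c : k, IsNilpotent (T - c • (1 : Module.End k V)) := by
  obtain ⟨c, hc⟩ := Module.End.exists_eigenvalue T
  refine ⟨c, ?_⟩
  set S : Module.End k V := T - c • (1 : Module.End k V) with hS
  have hSg : ∀ g x, S (ρ g x) = ρ g (S x) := by
    intro g x
    simp [hS, hT]
  have hSn : ∀ (n : ℕ) g x, (S ^ n) (ρ g x) = ρ g ((S ^ n) x) := by
    intro n
    induction n with
    | zero => simp
    | succ n ih =>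
      intro g x
      rw [pow_succ', Module.End.mul_apply, ih, hSg]; rfl
  obtain ⟨n, hn, hn1⟩ := ((LinearMap.eventually_isCompl_ker_pow_range_pow S).and
    (Filter.eventually_ge_atTop 1)).exists
  rcases h (LinearMap.ker (S ^ n)) (LinearMap.range (S ^ n)) (by
      intro g x hx
      rw [LinearMap.mem_ker] at hx ⊢
      rw [hSn, hx, map_zero]) (by
      rintro g _ ⟨y, rfl⟩
      exact ⟨ρ g y, hSn n g y⟩) hn with h1 | h1
  · exfalso
    obtain ⟨v, hv⟩ := hc.exists_hasEigenvector
    have h2 : S v = 0 := by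
      have := hv.apply_eq_smul
      simp [hS, this]
    have h3 : v ∈ LinearMap.ker (S ^ n) := by
      rw [LinearMap.mem_ker]
      obtain ⟨m, rfl⟩ := Nat.exists_eq_add_of_le hn1
      rw [add_comm, pow_add, pow_one, Module.End.mul_apply, h2, map_zero]
    rw [h1, Submodule.mem_bot] at h3
    exact hv.2 h3
  · exact ⟨n, LinearMap.range_eq_bot.mp h1⟩

theorem trace_scalar_nilp [FiniteDimensional k V] (T : Module.End k V) (c : k)
    (h : IsNilpotent (T - c • (1 : Module.End k V))) :
    LinearMap.trace k V T = c * (Module.finrank k V : k) := by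
  have h1 := (LinearMap.isNilpotent_trace_of_isNilpotent h).eq_zero
  rw [map_sub, map_smul, LinearMap.trace_one, smul_eq_mul, sub_eq_zero] at h1
  exact h1

/-- The subrepresentation on a stable subspace -/
def subRep (ρ : Representation k G V) (A : Submodule k V) (hA : ∀ g, ∀ x ∈ A, ρ g x ∈ A) :
    Representation k G A where
  toFun g := (ρ g).restrict (hA g)
  map_one' := by ext x; simp
  map_mul' g h := by ext x; simp

theorem IndecSub.indec {ρ : Representation k G V} {W : Submodule k V}
    (hW : ∀ g, ∀ x ∈ W, ρ g x ∈ W) (h : IndecSub ρ W) : Indec (subRep ρ W hW) := by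
  intro A B hA hB hAB
  have h1 : ∀ (A : Submodule k W), (∀ g : G, ∀ x ∈ A, subRep ρ W hW g x ∈ A) →
      ∀ g : G, ∀ x ∈ A.map W.subtype, ρ g x ∈ A.map W.subtype := by
    rintro A hA g _ ⟨x, hx, rfl⟩
    exact ⟨subRep ρ W hW g x, hA g x hx, rfl⟩
  rcases h (A.map W.subtype) (B.map W.subtype) (h1 A hA) (h1 B hB) (by
      rw [← Submodule.map_inf _ W.injective_subtype, hAB.inf_eq_bot, Submodule.map_bot]) (by
      rw [← Submodule.map_sup, hAB.sup_eq_top, Submodule.map_subtype_top]) with h2 | h2
  · left; exact Submodule.map_injective_of_injective W.injective_subtype (by rw [h2, Submodule.map_bot])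
  · right; exact Submodule.map_injective_of_injective W.injective_subtype (by rw [h2, Submodule.map_bot])

/-- traces of endomorphisms composed with a primitive idempotent of even rank vanish -/
theorem trace_prim [IsAlgClosed k] [CharP k 2] [FiniteDimensional k V]
    (ρ : Representation k G V) (f T : V →ₗ[k] V)
    (hf : ∀ g x, f (ρ g x) = ρ g (f x))
    (hT : ∀ g x, T (ρ g x) = ρ g (T x)) (hi : IndecSub ρ (LinearMap.range f))
    (he : 2 ∣ Module.finrank k (LinearMap.range f)) :
    LinearMap.trace k V (f ∘ₗ T) = 0 := by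
  have hW : ∀ g, ∀ x ∈ LinearMap.range f, ρ g x ∈ LinearMap.range f := by
    rintro g _ ⟨x, rfl⟩
    exact ⟨ρ g x, hf g x⟩
  have h1 := hi.indec hW
  have hmem : ∀ x, (f ∘ₗ T) x ∈ LinearMap.range f := fun x => ⟨T x, rfl⟩
  rw [← LinearMap.trace_restrict_eq_of_forall_mem (LinearMap.range f) (f ∘ₗ T) hmem]
  by_cases hn : Nontrivial (LinearMap.range f)
  · obtain ⟨c, hc⟩ := h1.fitting ((f ∘ₗ T).restrict (fun x _ => hmem x)) (by
      intro g x
      apply Subtype.ext
      change f (T (ρ g x)) = ρ g (f (T x))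
      rw [hT, hf])
    rw [trace_scalar_nilp _ c hc, (CharP.cast_eq_zero_iff k 2 _).mpr he, mul_zero]
  · rw [not_nontrivial_iff_subsingleton] at hn
    have : (f ∘ₗ T).restrict (fun x (_ : x ∈ LinearMap.range f) => hmem x) = 0 := by
      apply LinearMap.ext
      intro x
      exact Subsingleton.elim _ _
    rw [this, map_zero]

end

end Run7.h596
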