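import Pool.Agent.Run7.h596.TRet

/-! # The congruence modulo four -/

set_option autoImplicit false
open scoped TensorProduct

namespace Run7.h596

open TensorProduct

section

variable {k V U V' U' : Type*} [Field k] [CharP k 2] [AddCommGroup V] [Module k V]
  [AddCommGroup U] [Module k U]
  [AddCommGroup V'] [Module k V']
  [AddCommGroup U'] [Module k U'] {z : V →ₗ[k] V} {w : U →ₗ[k] U}
  (R : Ret k V' (z - LinearMap.id)) (S : Ret k U' (w - LinearMap.id))

theorem two_smul_zero {k M : Type*} [Field k] [CharP k 2] [AddCommGroup M] [Module k M] (c : M) :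
    c + c = 0 := by
  have h2 : (2 : k) = 0 := CharTwo.two_eq_zero
  rw [← two_smul k c, h2, zero_smul]

omit [CharP k 2] in
theorem comm_iff (f : V →ₗ[k] V) : (∀ x, f ((z - LinearMap.id : V →ₗ[k] V) x)
    = (z - LinearMap.id : V →ₗ[k] V) (f x)) ↔ f ∘ₗ z = z ∘ₗ f := by
  constructor
  · intro h
    ext x
    have := h x
    simpa using this
  · intro h x
    have := LinearMap.congr_fun h x
    simpa using this

include R in
theorem Ret.zz : z ∘ₗ z = LinearMap.id := by
  ext x; simp [R.z_z]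

theorem Ret.ip_eq : R.i ∘ₗ R.p = LinearMap.id + (z ∘ₗ R.h + R.h ∘ₗ z) := by
  ext x
  have h1 := R.hom x
  simp only [LinearMap.sub_apply, LinearMap.id_apply, map_sub] at h1
  simp only [LinearMap.comp_apply, LinearMap.add_apply, LinearMap.id_apply]
  have h2 : R.i (R.p x) = x - (z (R.h x) - R.h x + (R.h (z x) - R.h x)) := by
    rw [eq_sub_iff_add_eq, add_comm, h1]
  have h3 := two_smul_zero (k := k) (R.h x)
  have h4 := two_smul_zero (k := k) (z (R.h x) + R.h (z x))
  rw [h2]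
  calc _ = x - (z (R.h x) + R.h (z x)) + (R.h x + R.h x) := by abel
    _ = x - (z (R.h x) + R.h (z x)) + ((z (R.h x) + R.h (z x)) + (z (R.h x) + R.h (z x))) := by
        rw [h3, h4]
    _ = _ := by abel

variable [FiniteDimensional k V] [FiniteDimensional k U]
  [FiniteDimensional k V'] [FiniteDimensional k U']

omit [FiniteDimensional k V] [FiniteDimensional k U] [FiniteDimensional k V']
  [FiniteDimensional k U'] in
theorem Ret.tensor_comp (f : V ⊗[k] U →ₗ[k] V ⊗[k] U) :
    (R.tensor S).comp f = map R.p S.p ∘ₗ f ∘ₗ map R.i S.i := rfl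

theorem Ret.ptr_comp (f : V ⊗[k] U →ₗ[k] V ⊗[k] U) (hf : f ∘ₗ map z w = map z w ∘ₗ f) :
    ptr ((R.tensor S).comp f) = R.comp (ptr f) := by
  rw [Ret.tensor_comp, ptr_compress, S.ip_eq]
  have h1 : f ∘ₗ map LinearMap.id (LinearMap.id + (w ∘ₗ S.h + S.h ∘ₗ w))
      = f + (f ∘ₗ map LinearMap.id (w ∘ₗ S.h) + f ∘ₗ map LinearMap.id (S.h ∘ₗ w)) := by
    rw [TensorProduct.map_add_right, TensorProduct.map_add_right, LinearMap.comp_add,
      LinearMap.comp_add, TensorProduct.map_id, LinearMap.comp_id]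
  rw [h1, ptr_add, ptr_add]
  have h2 : ptr (f ∘ₗ map LinearMap.id (w ∘ₗ S.h))
      = z ∘ₗ ptr (f ∘ₗ map LinearMap.id (S.h ∘ₗ w)) ∘ₗ z := by
    have e1 : f ∘ₗ map LinearMap.id (w ∘ₗ S.h)
        = map z LinearMap.id ∘ₗ (map LinearMap.id w ∘ₗ (f ∘ₗ map LinearMap.id S.h))
          ∘ₗ map z LinearMap.id := by
      have : map (LinearMap.id : V →ₗ[k] V) (w ∘ₗ S.h) = map z w ∘ₗ map z S.h := by
        rw [← TensorProduct.map_comp, R.zz]
      rw [this, ← LinearMap.comp_assoc, hf]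
      have e2 : map z w = map z LinearMap.id ∘ₗ map (LinearMap.id : V →ₗ[k] V) w := by
        rw [← TensorProduct.map_comp, LinearMap.id_comp, LinearMap.comp_id]
      have e3 : map z S.h = map (LinearMap.id : V →ₗ[k] V) S.h ∘ₗ map z LinearMap.id := by
        rw [← TensorProduct.map_comp, LinearMap.id_comp, LinearMap.comp_id]
      rw [e2, e3]
      simp only [LinearMap.comp_assoc]
    rw [e1, ptr_comp_left, ptr_comp_right, ptr_cyc, LinearMap.comp_assoc, ← TensorProduct.map_comp,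
      LinearMap.id_comp]
  rw [h2]
  ext x
  simp only [LinearMap.comp_apply, LinearMap.add_apply, map_add, R.p_z, R.z_i, Ret.comp_apply]
  rw [two_smul_zero (k := k), add_zero]

theorem Ret.ptl_comp (f : V ⊗[k] U →ₗ[k] V ⊗[k] U) (hf : f ∘ₗ map z w = map z w ∘ₗ f) :
    ptl ((R.tensor S).comp f) = S.comp (ptl f) := by
  rw [Ret.tensor_comp, ptl_compress, R.ip_eq]
  have h1 : f ∘ₗ map (LinearMap.id + (z ∘ₗ R.h + R.h ∘ₗ z)) LinearMap.id
      = f + (f ∘ₗ map (z ∘ₗ R.h) LinearMap.id + f ∘ₗ map (R.h ∘ₗ z) LinearMap.id) := by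
    rw [TensorProduct.map_add_left, TensorProduct.map_add_left, LinearMap.comp_add,
      LinearMap.comp_add, TensorProduct.map_id, LinearMap.comp_id]
  rw [h1, ptl_add, ptl_add]
  have h2 : ptl (f ∘ₗ map (z ∘ₗ R.h) LinearMap.id)
      = w ∘ₗ ptl (f ∘ₗ map (R.h ∘ₗ z) LinearMap.id) ∘ₗ w := by
    have e1 : f ∘ₗ map (z ∘ₗ R.h) LinearMap.id
        = map LinearMap.id w ∘ₗ (map z LinearMap.id ∘ₗ (f ∘ₗ map R.h LinearMap.id))
          ∘ₗ map LinearMap.id w := by
      have : map (z ∘ₗ R.h) (LinearMap.id : U →ₗ[k] U) = map z w ∘ₗ map R.h w := by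
        rw [← TensorProduct.map_comp, S.zz]
      rw [this, ← LinearMap.comp_assoc, hf]
      have e2 : map z w = map LinearMap.id w ∘ₗ map z (LinearMap.id : U →ₗ[k] U) := by
        rw [← TensorProduct.map_comp, LinearMap.id_comp, LinearMap.comp_id]
      have e3 : map R.h w = map R.h (LinearMap.id : U →ₗ[k] U) ∘ₗ map LinearMap.id w := by
        rw [← TensorProduct.map_comp, LinearMap.id_comp, LinearMap.comp_id]
      rw [e2, e3]
      simp only [LinearMap.comp_assoc]
    rw [e1, ptl_comp_left, ptl_comp_right, ptl_cyc, LinearMap.comp_assoc, ← TensorProduct.map_comp,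
      LinearMap.id_comp]
  rw [h2]
  ext x
  simp only [LinearMap.comp_apply, LinearMap.add_apply, map_add, S.p_z, S.z_i, Ret.comp_apply]
  rw [two_smul_zero (k := k), add_zero]

include R S in
/-- the rank of `z ⊗ w - 1` on the image of `f` is even -/
theorem Ret.even_rank' (f : V ⊗[k] U →ₗ[k] V ⊗[k] U) (hf : f ∘ₗ map z w = map z w ∘ₗ f)
    (hff : ∀ x, f (f x) = f x)
    (h1 : LinearMap.trace k V (ptr (f ∘ₗ map LinearMap.id w) ∘ₗ (z - LinearMap.id) ∘ₗ R.h) = 0)
    (h2 : LinearMap.trace k U (ptl f ∘ₗ (w - LinearMap.id) ∘ₗ S.h) = 0) :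
    2 ∣ Module.finrank k (LinearMap.range (f ∘ₗ (map z w - LinearMap.id))) := by
  rw [← CharP.cast_eq_zero_iff k 2]
  rw [(R.tensor S).trace_eq f (R.NN S) ((comm_iff (z := map z w) f).mpr hf) hff (R.NN_spec S)]
  have h3 : (R.tensor S).comp (f ∘ₗ R.NN S) = 0 := by
    have h4 : R.NN S ∘ₗ map R.i S.i = 0 := by
      have e1 : ∀ x, (z - LinearMap.id : V →ₗ[k] V) (R.h (R.i x)) = 0 := by
        intro x
        have := R.hom (R.i x)
        rw [R.Di, map_zero, add_zero, R.pi] at this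
        exact left_eq_add.mp (by rw [add_comm]; exact this.symm)
      have e2 : ∀ x, (w - LinearMap.id : U →ₗ[k] U) (S.h (S.i x)) = 0 := by
        intro x
        have := S.hom (S.i x)
        rw [S.Di, map_zero, add_zero, S.pi] at this
        exact left_eq_add.mp (by rw [add_comm]; exact this.symm)
      ext x y
      simp only [Ret.NN, AlgebraTensorModule.curry_apply, LinearMap.restrictScalars_self,
        TensorProduct.curry_apply, LinearMap.comp_apply, map_tmul, LinearMap.add_apply,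
        e1, e2, TensorProduct.zero_tmul, TensorProduct.tmul_zero, add_zero, LinearMap.zero_apply]
    rw [Ret.tensor_comp, LinearMap.comp_assoc, h4, LinearMap.comp_zero,
      LinearMap.comp_zero]
  rw [h3, map_zero, sub_zero, Ret.NN, LinearMap.comp_add, map_add, trace_ptl]
  have h5 : f ∘ₗ map ((z - LinearMap.id) ∘ₗ R.h) w
      = (f ∘ₗ map LinearMap.id w) ∘ₗ map ((z - LinearMap.id) ∘ₗ R.h) LinearMap.id := by
    rw [LinearMap.comp_assoc, ← TensorProduct.map_comp, LinearMap.id_comp, LinearMap.comp_id]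
  rw [h5, trace_ptr, h1, h2, add_zero]

include R S in
/-- the rank of `z ⊗ w - 1` on the image of `f` is even -/
theorem Ret.even_rank (f : V ⊗[k] U →ₗ[k] V ⊗[k] U) (hf : f ∘ₗ map z w = map z w ∘ₗ f)
    (hff : ∀ x, f (f x) = f x)
    (h1 : IsNilpotent (ptr (f ∘ₗ map LinearMap.id w) : Module.End k V))
    (h2 : IsNilpotent (ptl f : Module.End k U)) :
    2 ∣ Module.finrank k (LinearMap.range (f ∘ₗ (map z w - LinearMap.id))) := by
  have h6 : ptr (f ∘ₗ map LinearMap.id w) ∘ₗ z = z ∘ₗ ptr (f ∘ₗ map LinearMap.id w) := by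
    apply ptr_conj _ _ w w S.zz S.zz
    have e : map z w ∘ₗ map LinearMap.id w = map (LinearMap.id : V →ₗ[k] V) w ∘ₗ map z w := by
      rw [← TensorProduct.map_comp, ← TensorProduct.map_comp, LinearMap.id_comp, LinearMap.comp_id]
    rw [LinearMap.comp_assoc, ← e, ← LinearMap.comp_assoc, hf, LinearMap.comp_assoc]
  have h7 : ptl f ∘ₗ w = w ∘ₗ ptl f := ptl_conj _ z z _ R.zz R.zz hf
  exact R.even_rank' S f hf hff (R.trace_nilp _ ((comm_iff (z := z) _).mpr h6) h1)
    (S.trace_nilp _ ((comm_iff (z := w) _).mpr h7) h2)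

/-- One reduction step. -/
theorem Ret.step' (f : V ⊗[k] U →ₗ[k] V ⊗[k] U) (hf : f ∘ₗ map z w = map z w ∘ₗ f)
    (hff : ∀ x, f (f x) = f x)
    (h1 : LinearMap.trace k V (ptr (f ∘ₗ map LinearMap.id w) ∘ₗ (z - LinearMap.id) ∘ₗ R.h) = 0)
    (h2 : LinearMap.trace k U (ptl f ∘ₗ (w - LinearMap.id) ∘ₗ S.h) = 0) :
    ∃ m, Module.finrank k (LinearMap.range f)
      = 4 * m + Module.finrank k (LinearMap.range ((R.tensor S).comp f)) := by
  obtain ⟨m, hm⟩ := R.even_rank' S f hf hff h1 h2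
  have h3 := (R.tensor S).rank_eq f ((comm_iff (z := map z w) f).mpr hf) hff
  refine ⟨m, ?_⟩
  rw [h3, hm]; ring

/-- One reduction step. -/
theorem Ret.step (f : V ⊗[k] U →ₗ[k] V ⊗[k] U) (hf : f ∘ₗ map z w = map z w ∘ₗ f)
    (hff : ∀ x, f (f x) = f x)
    (h1 : IsNilpotent (ptr (f ∘ₗ map LinearMap.id w) : Module.End k V))
    (h2 : IsNilpotent (ptl f : Module.End k U)) :
    ∃ m, Module.finrank k (LinearMap.range f)
      = 4 * m + Module.finrank k (LinearMap.range ((R.tensor S).comp f)) := by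
  obtain ⟨m, hm⟩ := R.even_rank S f hf hff h1 h2
  have h3 := (R.tensor S).rank_eq f ((comm_iff (z := map z w) f).mpr hf) hff
  refine ⟨m, ?_⟩
  rw [h3, hm]; ring

end

end Run7.h596
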