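import Pool.Agent.Run7.h596.Ptr

/-! # Tensor products of retractions in characteristic two -/

set_option autoImplicit false
open scoped TensorProduct

namespace Run7.h596

open TensorProduct

section

variable {k V U V' U' : Type*} [Field k] [CharP k 2] [AddCommGroup V] [Module k V]
  [AddCommGroup U] [Module k U]
  [AddCommGroup V'] [Module k V']
  [AddCommGroup U'] [Module k U'] {z : V →ₗ[k] V} {w : U →ₗ[k] U}
  (R : Ret k V' (z - LinearMap.id)) (S : Ret k U' (w - LinearMap.id))

omit [CharP k 2] in
theorem Ret.z_i (x : V') : z (R.i x) = R.i x := by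
  have := R.Di x
  simpa [sub_eq_zero] using this

omit [CharP k 2] in
theorem Ret.p_z (x : V) : R.p (z x) = R.p x := by
  have := R.pD x
  simpa [sub_eq_zero] using this

include R in
theorem Ret.z_z (x : V) : z (z x) = x := by
  have h2 : (2 : k) = 0 := CharTwo.two_eq_zero
  have h := R.DD x
  simp only [LinearMap.sub_apply, LinearMap.id_apply, map_sub] at h
  have h1 : z (z x) = x + (2 : k) • (z x - x) := by
    have : z (z x) - x - (2:k) • (z x - x) = 0 := by
      rw [← h]; module
    rw [sub_sub, sub_eq_zero] at this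
    exact this
  rw [h2, zero_smul, add_zero] at h1
  exact h1

/-- the tensor product of two retractions -/
noncomputable def Ret.tensor : Ret k (V' ⊗[k] U') (map z w - LinearMap.id) where
  i := map R.i S.i
  p := map R.p S.p
  h := map R.h w + map (R.i ∘ₗ R.p) S.h
  pi x := by
    induction x using TensorProduct.induction_on with
    | zero => simp
    | tmul x y => simp [R.pi, S.pi]
    | add x y hx hy => rw [map_add, map_add, hx, hy]
  Di x := by
    induction x using TensorProduct.induction_on with
    | zero => simp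
    | tmul x y => simp [R.z_i, S.z_i]
    | add x y hx hy => rw [map_add, map_add, hx, hy, add_zero]
  pD x := by
    induction x using TensorProduct.induction_on with
    | zero => simp
    | tmul x y => simp [R.p_z, S.p_z]
    | add x y hx hy => rw [map_add, map_add, hx, hy, add_zero]
  DD x := by
    have h2 : (2 : k) = 0 := CharTwo.two_eq_zero
    induction x using TensorProduct.induction_on with
    | zero => simp
    | tmul x y =>
      simp only [LinearMap.sub_apply, map_tmul, LinearMap.id_apply, map_sub, R.z_z, S.z_z]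
      have : x ⊗ₜ[k] y - (z x) ⊗ₜ[k] (w y) - ((z x) ⊗ₜ[k] (w y) - x ⊗ₜ[k] y)
        = (2 : k) • (x ⊗ₜ[k] y - (z x) ⊗ₜ[k] (w y)) := by module
      rw [this, h2, zero_smul]
    | add x y hx hy => rw [map_add, map_add, hx, hy, add_zero]
  hom x := by
    have h2 : (2 : k) = 0 := CharTwo.two_eq_zero
    induction x using TensorProduct.induction_on with
    | zero => simp
    | tmul x y =>
      have e1 := R.hom x
      have e2 := S.hom y
      simp only [LinearMap.sub_apply, LinearMap.id_apply, map_sub] at e1 e2
      simp only [LinearMap.sub_apply, LinearMap.add_apply, map_tmul, LinearMap.id_apply, map_sub,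
        map_add, LinearMap.comp_apply, S.z_z, R.p_z, R.z_i]
      have e3 : (x : V) ⊗ₜ[k] y = (z (R.h x) - R.h x + (R.h (z x) - R.h x) + R.i (R.p x)) ⊗ₜ[k] y := by
        rw [e1]
      have e4 : (R.i (R.p x) : V) ⊗ₜ[k] y
        = R.i (R.p x) ⊗ₜ[k] (w (S.h y) - S.h y + (S.h (w y) - S.h y) + S.i (S.p y)) := by
        rw [e2]
      rw [e3]
      simp only [add_tmul, sub_tmul]
      rw [e4]
      simp only [tmul_add, tmul_sub]
      have : ∀ a b : V ⊗[k] U, a - b = (2 : k) • (a - b) → a = b := by
        intro a b hab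
        rw [h2, zero_smul, sub_eq_zero] at hab
        exact hab
      rw [← sub_eq_zero]
      have e5 : ∀ c : V ⊗[k] U, (2 : k) • c = 0 := by
        intro c; rw [h2, zero_smul]
      rw [← e5 (R.h x ⊗ₜ[k] y - R.h x ⊗ₜ[k] w y)]
      module
    | add x y hx hy =>
      have : ∀ a b c d e f : V ⊗[k] U, (a + b) + (c + d) + (e + f) = (a + c + e) + (b + d + f) := by
        intros; abel
      simp only [map_add] at hx hy ⊢
      rw [this, hx, hy]

/-- the grading operator on the tensor product -/
noncomputable def Ret.NN : V ⊗[k] U →ₗ[k] V ⊗[k] U :=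
  map ((z - LinearMap.id) ∘ₗ R.h) w + map LinearMap.id ((w - LinearMap.id) ∘ₗ S.h)

theorem Ret.NN_spec (x : V ⊗[k] U) :
    R.NN S ((map z w - LinearMap.id : V ⊗[k] U →ₗ[k] V ⊗[k] U) x)
    + (map z w - LinearMap.id : V ⊗[k] U →ₗ[k] V ⊗[k] U) (R.NN S x)
      = (map z w - LinearMap.id : V ⊗[k] U →ₗ[k] V ⊗[k] U) x := by
  have h2 : (2 : k) = 0 := CharTwo.two_eq_zero
  have e5 : ∀ c : V ⊗[k] U, (2 : k) • c = 0 := by
    intro c; rw [h2, zero_smul]
  induction x using TensorProduct.induction_on with
  | zero => simp
  | tmul x y =>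
    have e1 : ∀ x, R.h (z x) = R.h x + R.h (z x - x) := by intro x; simp
    have e2 : ∀ x, S.h (w x) = S.h x + S.h (w x - x) := by intro x; simp
    have f1 := R.DhD x
    have f2 := S.DhD y
    simp only [LinearMap.sub_apply, LinearMap.id_apply, map_sub] at f1 f2
    have g1 : z (R.h (z x)) = z x - x + z (R.h x) + (R.h (z x) - R.h x) := by
      have := f1
      rw [sub_sub, sub_eq_iff_eq_add] at this
      rw [this]; abel
    have g2 : w (S.h (w y)) = w y - y + w (S.h y) + (S.h (w y) - S.h y) := by
      have := f2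
      rw [sub_sub, sub_eq_iff_eq_add] at this
      rw [this]; abel
    simp only [Ret.NN, LinearMap.sub_apply, LinearMap.add_apply, map_tmul, LinearMap.id_apply,
      map_sub, map_add, LinearMap.comp_apply, R.z_z, S.z_z, g1, g2, tmul_sub, sub_tmul, tmul_add,
      add_tmul]
    rw [← sub_eq_zero]
    rw [← e5 (-((z (R.h x)) ⊗ₜ[k] w y) + R.h x ⊗ₜ[k] w y - x ⊗ₜ[k] w (S.h y) + x ⊗ₜ[k] S.h y)]
    module
  | add x y hx hy =>
    have : ∀ a b c d : V ⊗[k] U, (a + b) + (c + d) = (a + c) + (b + d) := by
      intros; abel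
    simp only [map_add] at hx hy ⊢
    rw [this, hx, hy]

end

end Run7.h596
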